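import Mathlib

/-! Selective ultrafilters: diagonal intersections and selection of almost diagonal arrays. -/

set_option autoImplicit false

open Filter Topology Set

namespace Pool.Agent.V7H85.UP

/-- `U` is selective: for each partition of `ℕ` (`c n` is the index of the piece which contains `n`)
into pieces none of which lies in `U`, some set in `U` meets each piece in at most one point. -/
def IsSelective (U : Ultrafilter ℕ) : Prop :=
  ∀ c : ℕ → ℕ, (∀ k, c ⁻¹' {k} ∉ U) → ∃ s ∈ U, Set.InjOn c s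

/-- `U` is not principal. -/
def NonPrincipal (U : Ultrafilter ℕ) : Prop := ∀ n : ℕ, ({n} : Set ℕ) ∉ U

theorem NonPrincipal.finite_notMem {U : Ultrafilter ℕ} (h : NonPrincipal U) {s : Set ℕ}
    (hs : s.Finite) : s ∉ U := by
  intro hU
  obtain ⟨n, _, hn⟩ := (Ultrafilter.finite_biUnion_mem_iff (f := U) (is := s)
    (s := fun n : ℕ => ({n} : Set ℕ)) hs).1 (by simpa using hU)
  exact h n hn

/-- Sparse sets. -/
theorem sparse {U : Ultrafilter ℕ} (hU : NonPrincipal U) (hs : IsSelective U) (h : ℕ → ℕ) :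
    ∃ I ∈ U, ∀ k ∈ I, ∀ n ∈ I, k < n → h k < n := by
  -- the endpoints of the intervals
  let a : ℕ → ℕ := fun j => Nat.rec 0 (fun _ m => m + 1 + ∑ k ∈ Finset.range m, h k) j
  have ha : ∀ j, a (j + 1) = a j + 1 + ∑ k ∈ Finset.range (a j), h k := fun j => rfl
  have hlt : ∀ j, a j < a (j + 1) := fun j => by rw [ha]; omega
  have hmono : StrictMono a := strictMono_nat_of_lt_succ hlt
  have hh : ∀ j k, k < a j → h k < a (j + 1) := by
    intro j k hk
    have h1 : h k ≤ ∑ k ∈ Finset.range (a j), h k :=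
      Finset.single_le_sum (f := h) (fun _ _ => Nat.zero_le _) (Finset.mem_range.2 hk)
    rw [ha]; omega
  have hex : ∀ n, ∃ j, n < a (j + 1) := fun n => ⟨n, (hmono.id_le (n + 1)).trans_lt' (by simp)⟩
  let c : ℕ → ℕ := fun n => Nat.find (hex n)
  have hc1 : ∀ n, n < a (c n + 1) := fun n => Nat.find_spec (hex n)
  have hc2 : ∀ n, a (c n) ≤ n := by
    intro n
    rcases Nat.eq_zero_or_pos (c n) with h0 | h0
    · rw [h0]; exact Nat.zero_le _
    · have := Nat.find_min (hex n) (m := c n - 1) (by change c n - 1 < c n; omega)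
      rw [not_lt, Nat.sub_add_cancel h0] at this
      exact this
  have hcm : Monotone c := by
    intro m n hmn
    by_contra hlt'
    rw [not_le] at hlt'
    have h1 : a (c n + 1) ≤ a (c m) := hmono.monotone hlt'
    have := hc1 n
    have := hc2 m
    omega
  obtain ⟨Z, hZ, hinj⟩ := hs c (fun k => hU.finite_notMem ((Set.finite_Iio (a (k + 1))).subset
    (fun n hn => by
      have : c n = k := hn
      rw [mem_Iio, ← this]; exact hc1 n)))
  have hpar : {n | Even (c n)} ∈ U ∨ {n | Even (c n)}ᶜ ∈ U := U.mem_or_compl_mem _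
  have key : ∀ P : Set ℕ, (∀ m ∈ P, ∀ n ∈ P, c m < c n → c m + 2 ≤ c n) → P ∈ U →
      ∃ I ∈ U, ∀ k ∈ I, ∀ n ∈ I, k < n → h k < n := by
    intro P hP hPU
    refine ⟨Z ∩ P, inter_mem hZ hPU, ?_⟩
    rintro k ⟨hkZ, hkP⟩ n ⟨hnZ, hnP⟩ hkn
    have h1 : c k < c n := lt_of_le_of_ne (hcm hkn.le) fun h => hkn.ne (hinj hkZ hnZ h)
    have h2 := hP k hkP n hnP h1
    have h3 := hh (c k + 1) k (hc1 k)
    exact (h3.trans_le (hmono.monotone h2)).trans_le (hc2 n)
  rcases hpar with h1 | h1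
  · refine key _ ?_ h1
    intro m hm n hn hlt
    have e1 : Even (c m) := hm
    have e2 : Even (c n) := hn
    rw [Nat.even_iff] at e1 e2
    omega
  · refine key _ ?_ h1
    intro m hm n hn hlt
    have e1 : ¬ Even (c m) := hm
    have e2 : ¬ Even (c n) := hn
    rw [Nat.even_iff] at e1 e2
    omega

/-- Diagonal intersections. -/
theorem diagonal {U : Ultrafilter ℕ} (hU : NonPrincipal U) (hs : IsSelective U) (V : ℕ → Set ℕ)
    (hV : ∀ k, V k ∈ U) (M : ℕ → ℕ) :
    ∃ I ∈ U, ∀ k ∈ I, ∀ n ∈ I, k < n → n ∈ V k ∧ M k ≤ n := by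
  classical
  have hV' : ∀ k, {n | k < n ∧ ∀ j ≤ k, n ∈ V j} ∈ U := by
    intro k
    have h1 : {n | k < n} ∈ U := by
      have := Ultrafilter.compl_mem_iff_notMem.2 (hU.finite_notMem (Set.finite_Iic k))
      filter_upwards [this] with n hn
      simpa using hn
    have h2 : (⋂ j ∈ Set.Iic k, V j) ∈ (U : Filter ℕ) :=
      (Filter.biInter_mem (Set.finite_Iic k)).2 fun j _ => hV j
    filter_upwards [h1, h2] with n hn hn2
    refine ⟨hn, fun j hj => ?_⟩
    have := mem_iInter₂.1 hn2 j hj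
    exact this
  have hex : ∀ n, ∃ k, ¬ (k < n ∧ ∀ j ≤ k, n ∈ V j) := fun n => ⟨n, fun h => lt_irrefl _ h.1⟩
  let f : ℕ → ℕ := fun n => Nat.find (hex n)
  have hf : ∀ n k, k < f n → n ∈ V k := by
    intro n k hk
    have := Nat.find_min (hex n) hk
    rw [not_not] at this
    exact this.2 k le_rfl
  obtain ⟨Z, hZ, hinj⟩ := hs f (fun k hk => by
    obtain ⟨n, hn1, hn2⟩ := U.nonempty_of_mem (inter_mem hk (hV' k))
    have h1 : f n = k := hn1
    have h2 := Nat.find_spec (hex n)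
    change ¬ (f n < n ∧ ∀ j ≤ f n, n ∈ V j) at h2
    rw [h1] at h2
    exact h2 hn2)
  have hb : ∀ k, ∃ b, ∀ n ∈ Z, b < n → k < f n := by
    intro k
    have hfin : (Z ∩ {n | f n ≤ k}).Finite := by
      apply Set.Finite.of_finite_image (f := f) _ (hinj.mono inter_subset_left)
      exact (Set.finite_Iic k).subset (by rintro _ ⟨n, ⟨_, h⟩, rfl⟩; exact h)
    obtain ⟨b, hb⟩ := hfin.bddAbove
    refine ⟨b, fun n hn hbn => ?_⟩
    by_contra hcon
    rw [not_lt] at hcon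
    exact absurd (hb ⟨hn, hcon⟩) (not_le.2 hbn)
  choose b hb using hb
  obtain ⟨I, hI, hI'⟩ := sparse hU hs (fun k => max (b k) (M k))
  refine ⟨I ∩ Z, inter_mem hI hZ, ?_⟩
  rintro k ⟨hk, _⟩ n ⟨hn, hnZ⟩ hkn
  have h1 := hI' k hk n hn hkn
  exact ⟨hf n k (hb k n hnZ ((le_max_left _ _).trans_lt h1)), ((le_max_right _ _).trans_lt h1).le⟩

theorem tail_of_bounded {x : ℕ → ℝ} (h0 : ∀ k, 0 ≤ x k) {C : ℝ}
    (hC : ∀ F : Finset ℕ, ∑ k ∈ F, x k ≤ C) {ε : ℝ} (hε : 0 < ε) :
    ∃ K : ℕ, ∀ F : Finset ℕ, (∀ k ∈ F, K ≤ k) → ∑ k ∈ F, x k ≤ ε := by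
  have hs : Summable x := summable_of_sum_le h0 hC
  obtain ⟨s, hs'⟩ := summable_iff_vanishing_norm.1 hs ε hε
  obtain ⟨K, hK⟩ := s.bddAbove
  refine ⟨K + 1, fun F hF => ?_⟩
  have hd : Disjoint F s := by
    rw [Finset.disjoint_left]
    intro k hk hks
    have := hF k hk
    have := hK hks
    omega
  exact (le_abs_self _).trans (hs' F hd).le

/-- Selection of an almost diagonal part of a square summable array. -/
theorem select {U : Ultrafilter ℕ} (hU : NonPrincipal U) (hs : IsSelective U) {α : ℕ → ℕ → ℝ}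
    (h0 : ∀ k n, 0 ≤ α k n) {C : ℝ} (hC : ∀ n, ∀ F : Finset ℕ, ∑ k ∈ F, α k n ≤ C) {ε : ℝ}
    (hε : 0 < ε) :
    ∃ I ∈ U, ∀ n ∈ I, ∀ F : Finset ℕ, (∀ k ∈ F, k ∈ I ∧ k ≠ n) → ∑ k ∈ F, α k n ≤ ε := by
  classical
  have hle : ∀ k n, α k n ≤ C := fun k n => by simpa using hC n {k}
  have hlim : ∀ k, ∃ β ∈ Set.Icc (0 : ℝ) C, Tendsto (α k) U (𝓝 β) := by
    intro k
    have hmem : Set.Icc (0 : ℝ) C ∈ U.map (α k) := by
      rw [Ultrafilter.mem_map]
      exact Filter.univ_mem' fun n => ⟨h0 k n, hle k n⟩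
    obtain ⟨β, hβ, hβ'⟩ := isCompact_Icc.ultrafilter_le_nhds (U.map (α k))
      (by rwa [le_principal_iff])
    exact ⟨β, hβ, hβ'⟩
  choose β hβ1 hβ2 using hlim
  have hβC : ∀ F : Finset ℕ, ∑ k ∈ F, β k ≤ C := by
    intro F
    exact le_of_tendsto (tendsto_finsetSum F fun k _ => hβ2 k) (Filter.Eventually.of_forall
      fun n => hC n F)
  obtain ⟨K, hK⟩ := tail_of_bounded (fun k => (hβ1 k).1) hβC (show 0 < ε / 4 by linarith)
  have hM : ∀ n, ∃ M : ℕ, ∀ F : Finset ℕ, (∀ k ∈ F, M ≤ k) → ∑ k ∈ F, α k n ≤ ε / 4 :=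
    fun n => tail_of_bounded (fun k => h0 k n) (hC n) (by linarith)
  choose M hM using hM
  have hV : ∀ k, {n | α k n < β k + ε / 4 * (1 / 2) ^ (k + 1)} ∈ U := by
    intro k
    exact (hβ2 k).eventually (gt_mem_nhds (by
      have : 0 < ε / 4 * (1 / 2 : ℝ) ^ (k + 1) := by positivity
      linarith))
  obtain ⟨I, hI, hI'⟩ := diagonal hU hs _ hV M
  have hKU : Set.Ici K ∈ U := by
    have := Ultrafilter.compl_mem_iff_notMem.2 (hU.finite_notMem (Set.finite_Iio K))
    filter_upwards [this] with n hn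
    simpa using hn
  refine ⟨I ∩ Set.Ici K, inter_mem hI hKU, ?_⟩
  rintro n ⟨hn, hnK⟩ F hF
  rw [← Finset.sum_filter_add_sum_filter_not F (fun k => k < n)]
  have h1 : ∑ k ∈ F.filter (fun k => k < n), α k n ≤ ε / 4 + ε / 4 := by
    have e1 : ∑ k ∈ F.filter (fun k => k < n), α k n ≤
        ∑ k ∈ F.filter (fun k => k < n), (β k + ε / 4 * (1 / 2) ^ (k + 1)) := by
      refine Finset.sum_le_sum fun k hk => ?_
      rw [Finset.mem_filter] at hk
      exact (hI' k (hF k hk.1).1.1 n hn hk.2).1.le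
    rw [Finset.sum_add_distrib] at e1
    have e2 := hK (F.filter (fun k => k < n)) (fun k hk => by
      rw [Finset.mem_filter] at hk
      exact (hF k hk.1).1.2)
    have e3 : ∑ k ∈ F.filter (fun k => k < n), ε / 4 * (1 / 2 : ℝ) ^ (k + 1) ≤ ε / 4 := by
      rw [← Finset.mul_sum]
      have hs1 : Summable fun k : ℕ => (1 / 2 : ℝ) ^ (k + 1) := by
        simp_rw [pow_succ]; exact summable_geometric_two.mul_right _
      have e4 : ∑ k ∈ F.filter (fun k => k < n), (1 / 2 : ℝ) ^ (k + 1) ≤ 1 := by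
        refine (hs1.sum_le_tsum _ fun _ _ => by positivity).trans ?_
        simp_rw [pow_succ]
        rw [tsum_mul_right, tsum_geometric_two]
        norm_num
      nlinarith
    linarith
  have h2 : ∑ k ∈ F.filter (fun k => ¬ k < n), α k n ≤ ε / 4 := by
    refine hM n _ fun k hk => ?_
    rw [Finset.mem_filter] at hk
    have h3 := (hF k hk.1)
    exact (hI' n hn k h3.1.1 (lt_of_le_of_ne (not_lt.1 hk.2) h3.2.symm)).2
  linarith

end Pool.Agent.V7H85.UP
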