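import Mathlib
import Pool.Agent.V7H85.UP.Select

/-! Ultrapowers of Banach spaces and the weak operator closure of the ultrapower operators. -/

set_option autoImplicit false

open Filter Topology Set
open scoped ENNReal

namespace Pool.Agent.V7H85.UP

noncomputable section

variable (𝕜 : Type*) [RCLike 𝕜] (X : Type*) [NormedAddCommGroup X] [NormedSpace 𝕜 X]
  (U : Ultrafilter ℕ)

/-- The space `ℓ^∞(X)` of the bounded sequences in `X`, with the supremum norm. -/
abbrev BddSeq := BoundedContinuousFunction ℕ X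

theorem null_add (x y : BddSeq X) (hx : Tendsto (fun n => ‖x n‖) U (𝓝 0))
    (hy : Tendsto (fun n => ‖y n‖) U (𝓝 0)) : Tendsto (fun n => ‖(x + y) n‖) U (𝓝 0) := by
  have h := hx.add hy
  rw [add_zero] at h
  exact squeeze_zero (fun n => norm_nonneg _) (fun n => norm_add_le _ _) h

theorem null_smul (c : 𝕜) (x : BddSeq X) (hx : Tendsto (fun n => ‖x n‖) U (𝓝 0)) :
    Tendsto (fun n => ‖(c • x) n‖) U (𝓝 0) := by
  have h := Tendsto.const_mul ‖c‖ hx
  rw [mul_zero] at h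
  refine h.congr fun n => ?_
  rw [BoundedContinuousFunction.coe_smul, norm_smul]

theorem null_zero : Tendsto (fun n => ‖(0 : BddSeq X) n‖) U (𝓝 0) := by
  refine tendsto_const_nhds.congr fun n => ?_
  simp

/-- The subspace of `ℓ^∞(X)` formed by the sequences `x` with `lim_U ‖x n‖ = 0`. -/
def nullSeq : Submodule 𝕜 (BddSeq X) where
  carrier := {x | Tendsto (fun n => ‖x n‖) U (𝓝 0)}
  add_mem' {x y} hx hy := null_add X U x y hx hy
  zero_mem' := null_zero X U
  smul_mem' c x hx := null_smul 𝕜 X U c x hx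

theorem mem_nullSeq {x : BddSeq X} : x ∈ nullSeq 𝕜 X U ↔ Tendsto (fun n => ‖x n‖) U (𝓝 0) :=
  Iff.rfl

theorem isClosed_nullSeq' : IsClosed (nullSeq 𝕜 X U : Set (BddSeq X)) := by
  rw [← isSeqClosed_iff_isClosed]
  intro x y hx hxy
  change Tendsto (fun n => ‖y n‖) U (𝓝 0)
  rw [Metric.tendsto_nhds]
  intro ε hε
  obtain ⟨k, hk⟩ := ((tendsto_iff_norm_sub_tendsto_zero.1 hxy).eventually
    (gt_mem_nhds (half_pos hε))).exists
  have h1 : Tendsto (fun n => ‖x k n‖) U (𝓝 0) := hx k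
  filter_upwards [h1.eventually (gt_mem_nhds (half_pos hε))] with n hn
  have h2 : ‖y n‖ ≤ ‖x k n‖ + ‖x k n - y n‖ := by
    have := norm_sub_le (x k n) (x k n - y n)
    rwa [sub_sub_cancel] at this
  have h3 : ‖x k n - y n‖ ≤ ‖x k - y‖ := (x k - y).norm_coe_le_norm n
  rw [dist_zero_right, norm_norm]
  linarith

instance isClosed_nullSeq : IsClosed (nullSeq 𝕜 X U : Set (BddSeq X)) := isClosed_nullSeq' 𝕜 X U

/-- The ultrapower `X^U`: the quotient of `ℓ^∞(X)` by the sequences with `lim_U ‖x n‖ = 0`, with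
the quotient norm (which is the limit of the norms along `U`, see `tendsto_norm_cls`). -/
def Ultrapower := BddSeq X ⧸ nullSeq 𝕜 X U

instance instNormedGroupUltrapower : NormedAddCommGroup (Ultrapower 𝕜 X U) :=
  Submodule.Quotient.normedAddCommGroup (nullSeq 𝕜 X U)

instance instNormedSpaceUltrapower : NormedSpace 𝕜 (Ultrapower 𝕜 X U) :=
  Submodule.Quotient.normedSpace (nullSeq 𝕜 X U) 𝕜

instance instCompleteUltrapower [CompleteSpace X] : CompleteSpace (Ultrapower 𝕜 X U) :=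
  Submodule.Quotient.completeSpace (nullSeq 𝕜 X U)

variable {X}

/-- A bounded sequence, as an element of `ℓ^∞(X)`. -/
def mkSeq (x : ℕ → X) (C : ℝ) (h : ∀ n, ‖x n‖ ≤ C) : BddSeq X :=
  BoundedContinuousFunction.ofNormedAddCommGroupDiscrete x C h

@[simp] theorem mkSeq_apply (x : ℕ → X) (C : ℝ) (h : ∀ n, ‖x n‖ ≤ C) (n : ℕ) :
    mkSeq x C h n = x n := rfl

/-- The class of a bounded sequence in the ultrapower. -/
def cls (x : BddSeq X) : Ultrapower 𝕜 X U := (nullSeq 𝕜 X U).mkQ x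

theorem cls_eq {x y : BddSeq X} : cls 𝕜 U x = cls 𝕜 U y ↔ x - y ∈ nullSeq 𝕜 X U :=
  Submodule.Quotient.eq (nullSeq 𝕜 X U)

theorem cls_add (x y : BddSeq X) : cls 𝕜 U (x + y) = cls 𝕜 U x + cls 𝕜 U y := rfl

theorem cls_sub (x y : BddSeq X) : cls 𝕜 U (x - y) = cls 𝕜 U x - cls 𝕜 U y := rfl

theorem cls_smul (c : 𝕜) (x : BddSeq X) : cls 𝕜 U (c • x) = c • cls 𝕜 U x := rfl

variable {𝕜} {U}

theorem norm_cls_le {x : BddSeq X} {c : ℝ} (hc : 0 ≤ c) (h : ∀ᶠ n in U, ‖x n‖ ≤ c) :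
    ‖cls 𝕜 U x‖ ≤ c := by
  classical
  let y : BddSeq X := mkSeq (fun n => if ‖x n‖ ≤ c then x n else 0) c (fun n => by
    split_ifs with h
    · exact h
    · simpa using hc)
  have hxy : cls 𝕜 U x = cls 𝕜 U y := by
    rw [cls_eq, mem_nullSeq]
    refine tendsto_const_nhds.congr' ?_
    filter_upwards [h] with n hn
    rw [BoundedContinuousFunction.sub_apply, mkSeq_apply, if_pos hn, sub_self, norm_zero]
  rw [hxy]
  have h1 : ‖cls 𝕜 U y‖ ≤ ‖y‖ := Submodule.Quotient.norm_mk_le (nullSeq 𝕜 X U) y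
  refine h1.trans ((BoundedContinuousFunction.norm_le hc).2 fun n => ?_)
  change ‖(if ‖x n‖ ≤ c then x n else 0)‖ ≤ c
  split_ifs with h
  · exact h
  · simpa using hc

/-- The norm of the ultrapower is the limit of the norms. -/
theorem tendsto_norm_cls (x : BddSeq X) :
    Tendsto (fun n => ‖x n‖) U (𝓝 ‖cls 𝕜 U x‖) := by
  have hb : ∀ n, ‖x n‖ ∈ Set.Icc (0 : ℝ) ‖x‖ := fun n =>
    ⟨norm_nonneg _, x.norm_coe_le_norm n⟩
  have hmem : Set.Icc (0 : ℝ) ‖x‖ ∈ U.map (fun n => ‖x n‖) := by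
    rw [Ultrafilter.mem_map]
    exact Filter.univ_mem' hb
  obtain ⟨L, hL, hL'⟩ := isCompact_Icc.ultrafilter_le_nhds (U.map fun n => ‖x n‖)
    (by rwa [le_principal_iff])
  have hL2 : Tendsto (fun n => ‖x n‖) U (𝓝 L) := hL'
  suffices h : ‖cls 𝕜 U x‖ = L by rw [h]; exact hL2
  apply le_antisymm
  · refine le_of_forall_pos_le_add fun ε hε => ?_
    exact norm_cls_le (by linarith [hL.1]) ((hL2.eventually (gt_mem_nhds (by linarith))).mono
      fun n hn => le_of_lt hn)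
  · refine le_of_forall_pos_le_add fun ε hε => ?_
    obtain ⟨z, hz, hz'⟩ := Submodule.Quotient.norm_mk_lt (S := nullSeq 𝕜 X U) (cls 𝕜 U x) hε
    have h1 : z - x ∈ nullSeq 𝕜 X U := by
      rw [← Submodule.Quotient.eq]; exact hz
    have h2 : Tendsto (fun n => ‖(z - x) n‖) U (𝓝 0) := h1
    have h3 : Tendsto (fun n => ‖x n‖ - ‖(z - x) n‖) U (𝓝 (L - 0)) := hL2.sub h2
    rw [sub_zero] at h3
    refine (le_of_tendsto h3 (Filter.Eventually.of_forall fun n => ?_)).trans hz'.le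
    have h4 : ‖x n‖ ≤ ‖z n‖ + ‖(z - x) n‖ := by
      have := norm_sub_le (z n) ((z - x) n)
      rwa [BoundedContinuousFunction.sub_apply, sub_sub_cancel] at this
    have h5 : ‖z n‖ ≤ ‖z‖ := z.norm_coe_le_norm n
    linarith

/-- Coordinatewise application of an operator to a bounded sequence. -/
abbrev seqMap (T : X →L[𝕜] X) : BddSeq X →L[𝕜] BddSeq X := T.compLeftContinuousBounded ℕ

@[simp] theorem seqMap_apply (T : X →L[𝕜] X) (x : BddSeq X) (n : ℕ) : seqMap T x n = T (x n) := rfl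

variable (U)

theorem null_le_ker (T : X →L[𝕜] X) :
    nullSeq 𝕜 X U ≤ ((nullSeq 𝕜 X U).mkQL.comp (T.compLeftContinuousBounded ℕ)).ker := by
  intro x hx
  rw [LinearMap.mem_ker]
  change (nullSeq 𝕜 X U).mkQ (seqMap T x) = 0
  rw [Submodule.mkQ_apply, Submodule.Quotient.mk_eq_zero, mem_nullSeq]
  have h := Tendsto.const_mul ‖T‖ (show Tendsto (fun n => ‖x n‖) U (𝓝 0) from hx)
  rw [mul_zero] at h
  exact squeeze_zero (fun n => norm_nonneg _) (fun n => T.le_opNorm _) h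

/-- The ultrapower `T^U` of an operator `T`, `T^U (x n)_U = (T (x n))_U`. -/
def ultraMap (T : X →L[𝕜] X) : Ultrapower 𝕜 X U →L[𝕜] Ultrapower 𝕜 X U :=
  (nullSeq 𝕜 X U).liftQL ((nullSeq 𝕜 X U).mkQL.comp (T.compLeftContinuousBounded ℕ))
    (null_le_ker U T)

variable {U}

@[simp] theorem ultraMap_cls (T : X →L[𝕜] X) (x : BddSeq X) :
    ultraMap U T (cls 𝕜 U x) = cls 𝕜 U (seqMap T x) := rfl

theorem cls_surjective (y : Ultrapower 𝕜 X U) : ∃ x, cls 𝕜 U x = y :=
  Submodule.mkQ_surjective _ y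

/-- `T ↦ T^U` as a linear map into the operators with the weak operator topology. -/
def ultraLin : (X →L[𝕜] X) →ₗ[𝕜] (Ultrapower 𝕜 X U →WOT[𝕜] Ultrapower 𝕜 X U) where
  toFun T := ContinuousLinearMapWOT.ofCLM (ultraMap U T)
  map_add' S T := by
    apply ContinuousLinearMapWOT.ext
    intro y
    obtain ⟨x, rfl⟩ := cls_surjective y
    rfl
  map_smul' c T := by
    apply ContinuousLinearMapWOT.ext
    intro y
    obtain ⟨x, rfl⟩ := cls_surjective y
    rfl

variable (𝕜 X U)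

/-- The weak operator closure of the set of all ultrapower operators `T^U`. -/
def wotClosure : Set (Ultrapower 𝕜 X U →L[𝕜] Ultrapower 𝕜 X U) :=
  {S | ContinuousLinearMapWOT.ofCLM S ∈
    closure {R | ∃ T : X →L[𝕜] X, R = ContinuousLinearMapWOT.ofCLM (ultraMap U T)}}

/-- The weak operator closure of the set of the ultrapower operators `T^U` with `‖T‖ ≤ r`. -/
def wotClosureBdd (r : ℝ) : Set (Ultrapower 𝕜 X U →L[𝕜] Ultrapower 𝕜 X U) :=
  {S | ContinuousLinearMapWOT.ofCLM S ∈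
    closure {R | ∃ T : X →L[𝕜] X, ‖T‖ ≤ r ∧ R = ContinuousLinearMapWOT.ofCLM (ultraMap U T)}}

/-- Some operator in the weak operator closure `𝒜` of the operators `T^U` lies in none of the weak
operator closures `𝒜_r` of the operators `T^U` with `‖T‖ ≤ r`. -/
def NotBoundedlyApproximable : Prop :=
  ∃ S ∈ wotClosure 𝕜 X U, ∀ r : ℝ, S ∉ wotClosureBdd 𝕜 X U r

variable {𝕜 X U}

theorem wotClosure_eq : wotClosure 𝕜 X U = {S | ContinuousLinearMapWOT.ofCLM S ∈
    (LinearMap.range (ultraLin (𝕜 := 𝕜) (X := X) (U := U))).topologicalClosure} := by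
  ext S
  simp only [wotClosure, mem_ofPred_eq]
  rw [← SetLike.mem_coe, Submodule.topologicalClosure_coe]
  have : {R | ∃ T : X →L[𝕜] X, R = ContinuousLinearMapWOT.ofCLM (ultraMap U T)} =
      (LinearMap.range (ultraLin (𝕜 := 𝕜) (X := X) (U := U)) : Set _) := by
    ext R
    simp only [mem_ofPred_eq, SetLike.mem_coe, LinearMap.mem_range]
    constructor
    · rintro ⟨T, rfl⟩; exact ⟨T, rfl⟩
    · rintro ⟨T, rfl⟩; exact ⟨T, rfl⟩
  rw [this]

theorem sum_mem_wotClosure {ι : Type*} (F : Finset ι) (c : ι → 𝕜)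
    (S : ι → (Ultrapower 𝕜 X U →L[𝕜] Ultrapower 𝕜 X U)) (h : ∀ i, S i ∈ wotClosure 𝕜 X U) :
    ∑ i ∈ F, c i • S i ∈ wotClosure 𝕜 X U := by
  classical
  rw [wotClosure_eq] at h ⊢
  change (ContinuousLinearMapWOT.linearEquiv 𝕜).symm (∑ i ∈ F, c i • S i) ∈
    (LinearMap.range (ultraLin (𝕜 := 𝕜) (X := X) (U := U))).topologicalClosure
  rw [map_sum]
  refine Submodule.sum_mem _ fun i _ => ?_
  rw [map_smul]
  exact Submodule.smul_mem _ _ (h i)

theorem mem_wotClosure_of_hasSum {ι : Type*} (c : ι → 𝕜)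
    (S : ι → (Ultrapower 𝕜 X U →L[𝕜] Ultrapower 𝕜 X U)) (h : ∀ i, S i ∈ wotClosure 𝕜 X U)
    {R : Ultrapower 𝕜 X U →L[𝕜] Ultrapower 𝕜 X U} (hR : HasSum (fun i => c i • S i) R) :
    R ∈ wotClosure 𝕜 X U := by
  have h1 : Tendsto (fun F : Finset ι => ContinuousLinearMapWOT.ofCLM (∑ i ∈ F, c i • S i)) atTop
      (𝓝 (ContinuousLinearMapWOT.ofCLM R)) :=
    (ContinuousLinearMapWOT.continuous_ofCLM.tendsto R).comp hR
  exact isClosed_closure.mem_of_tendsto h1 (Filter.Eventually.of_forall fun F =>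
    sum_mem_wotClosure F c S h)

/-- Approximation in norm on finite sets is sufficient for membership in the weak operator
closure. -/
theorem mem_wotClosure_of_approx {S : Ultrapower 𝕜 X U →L[𝕜] Ultrapower 𝕜 X U}
    (h : ∀ (F : Finset (Ultrapower 𝕜 X U)) (ε : ℝ), 0 < ε → ∃ T : X →L[𝕜] X,
      ∀ y ∈ F, ‖ultraMap U T y - S y‖ ≤ ε) : S ∈ wotClosure 𝕜 X U := by
  classical
  choose T hT using fun a : Finset (Ultrapower 𝕜 X U) × ℕ =>
    h a.1 (1 / ((a.2 : ℝ) + 1)) (by positivity)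
  have h1 : Tendsto (fun a : Finset (Ultrapower 𝕜 X U) × ℕ =>
      ContinuousLinearMapWOT.ofCLM (ultraMap U (T a))) atTop
      (𝓝 (ContinuousLinearMapWOT.ofCLM S)) := by
    rw [ContinuousLinearMapWOT.tendsto_iff_forall_dual_apply_tendsto]
    intro y ψ
    refine (ψ.continuous.tendsto _).comp ?_
    rw [tendsto_iff_norm_sub_tendsto_zero]
    have h2 : Tendsto (fun a : Finset (Ultrapower 𝕜 X U) × ℕ => 1 / ((a.2 : ℝ) + 1)) atTop (𝓝 0) :=
      tendsto_one_div_add_atTop_nhds_zero_nat.comp (by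
        rw [← Filter.prod_atTop_atTop_eq]; exact tendsto_snd)
    refine squeeze_zero' (Filter.Eventually.of_forall fun a => norm_nonneg _) ?_ h2
    filter_upwards [Filter.eventually_ge_atTop (({y}, 0) : Finset (Ultrapower 𝕜 X U) × ℕ)] with a ha
    exact hT a y (ha.1 (Finset.mem_singleton_self y))
  exact mem_closure_of_tendsto h1 (Filter.Eventually.of_forall fun a => ⟨T a, rfl⟩)

/-! ### Functionals -/

theorem tendsto_limUnder_of_bdd {t : ℕ → 𝕜} {C : ℝ} (h : ∀ n, ‖t n‖ ≤ C) :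
    Tendsto t U (𝓝 (limUnder (U : Filter ℕ) t)) := by
  have hmem : Metric.closedBall (0 : 𝕜) C ∈ U.map t := by
    rw [Ultrafilter.mem_map]
    exact Filter.univ_mem' fun n => by simpa using h n
  obtain ⟨L, hL, hL'⟩ := (isCompact_closedBall (0 : 𝕜) C).ultrafilter_le_nhds (U.map t)
    (by rwa [le_principal_iff])
  exact tendsto_nhds_limUnder ⟨L, hL'⟩

variable (U)

/-- The functional `x ↦ lim_U v n (x n)` on the bounded sequences. -/
def seqFun (v : ℕ → X →L[𝕜] 𝕜) (C : ℝ) (hC : 0 ≤ C) (h : ∀ n, ‖v n‖ ≤ C) : BddSeq X →L[𝕜] 𝕜 :=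
  have hb : ∀ x : BddSeq X, ∀ n, ‖v n (x n)‖ ≤ C * ‖x‖ := fun x n =>
    ((v n).le_opNorm _).trans (mul_le_mul (h n) (x.norm_coe_le_norm n)
      (norm_nonneg _) hC)
  LinearMap.mkContinuous
    { toFun := fun x => limUnder (U : Filter ℕ) (fun n => v n (x n))
      map_add' := fun x y => by
        have h1 := (tendsto_limUnder_of_bdd (U := U) (hb x)).add
          (tendsto_limUnder_of_bdd (U := U) (hb y))
        refine Tendsto.limUnder_eq (h1.congr fun n => ?_)
        simp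
      map_smul' := fun c x => by
        have h1 := (tendsto_limUnder_of_bdd (U := U) (hb x)).const_mul c
        refine Tendsto.limUnder_eq (h1.congr fun n => ?_)
        simp } C
    (fun x => le_of_tendsto (tendsto_limUnder_of_bdd (U := U) (hb x)).norm
      (Filter.Eventually.of_forall fun n => hb x n))

theorem seqFun_tendsto (v : ℕ → X →L[𝕜] 𝕜) (C : ℝ) (hC : 0 ≤ C) (h : ∀ n, ‖v n‖ ≤ C)
    (x : BddSeq X) : Tendsto (fun n => v n (x n)) U (𝓝 (seqFun U v C hC h x)) :=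
  tendsto_limUnder_of_bdd (C := C * ‖x‖) fun n =>
    ((v n).le_opNorm _).trans (mul_le_mul (h n) (x.norm_coe_le_norm n)
      (norm_nonneg _) hC)

/-- The functional on the ultrapower given by a bounded sequence of functionals. -/
def ultraFun (v : ℕ → X →L[𝕜] 𝕜) (C : ℝ) (hC : 0 ≤ C) (h : ∀ n, ‖v n‖ ≤ C) :
    Ultrapower 𝕜 X U →L[𝕜] 𝕜 :=
  (nullSeq 𝕜 X U).liftQL (seqFun U v C hC h) (by
    intro x hx
    rw [LinearMap.mem_ker]
    refine tendsto_nhds_unique (seqFun_tendsto U v C hC h x) ?_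
    have h1 := Tendsto.const_mul C (show Tendsto (fun n => ‖x n‖) U (𝓝 0) from hx)
    rw [mul_zero] at h1
    refine squeeze_zero_norm (fun n => ?_) h1
    exact ((v n).le_opNorm _).trans (mul_le_mul_of_nonneg_right (h n) (norm_nonneg _)))

theorem ultraFun_tendsto (v : ℕ → X →L[𝕜] 𝕜) (C : ℝ) (hC : 0 ≤ C) (h : ∀ n, ‖v n‖ ≤ C)
    (x : BddSeq X) : Tendsto (fun n => v n (x n)) U (𝓝 (ultraFun U v C hC h (cls 𝕜 U x))) :=
  seqFun_tendsto U v C hC h x

theorem norm_ultraFun_le (v : ℕ → X →L[𝕜] 𝕜) (C : ℝ) (hC : 0 ≤ C) (h : ∀ n, ‖v n‖ ≤ C) :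
    ‖ultraFun U v C hC h‖ ≤ C := by
  refine ContinuousLinearMap.opNorm_le_bound _ hC fun y => ?_
  obtain ⟨x, rfl⟩ := cls_surjective y
  refine le_of_tendsto_of_tendsto (ultraFun_tendsto U v C hC h x).norm
    ((tendsto_norm_cls (𝕜 := 𝕜) (U := U) x).const_mul C) (Filter.Eventually.of_forall fun n => ?_)
  exact ((v n).le_opNorm _).trans (mul_le_mul_of_nonneg_right (h n) (norm_nonneg _))

end

end Pool.Agent.V7H85.UP
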