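import Mathlib
import Pool.Agent.V7H85.UP.Ultra

/-! The abstract construction of an operator in the weak operator closure which is not a bounded
limit of ultrapower operators. -/

set_option autoImplicit false

open Filter Topology Set
open scoped ENNReal

namespace Pool.Agent.V7H85.UP

noncomputable section

variable {𝕜 : Type*} [RCLike 𝕜] {X : Type*} [NormedAddCommGroup X] [NormedSpace 𝕜 X]

/-- The sequence `w` in a normed space has an upper 2-estimate with constant `K`. -/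
def UpperTwo (𝕜 : Type*) [RCLike 𝕜] {Z : Type*} [NormedAddCommGroup Z] [NormedSpace 𝕜 Z] (K : ℝ)
    (w : ℕ → Z) : Prop :=
  ∀ (F : Finset ℕ) (c : ℕ → 𝕜), ‖∑ n ∈ F, c n • w n‖ ≤ K * √(∑ n ∈ F, ‖c n‖ ^ 2)

theorem UpperTwo.norm_le {Z : Type*} [NormedAddCommGroup Z] [NormedSpace 𝕜 Z] {K : ℝ}
    {w : ℕ → Z} (h : UpperTwo 𝕜 K w) (n : ℕ) : ‖w n‖ ≤ K := by
  have := h {n} (fun _ => 1)
  simpa using this

/-- Bessel's inequality for functionals with an upper 2-estimate. -/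
theorem bessel {K : ℝ} {v : ℕ → X →L[𝕜] 𝕜} (hv : UpperTwo 𝕜 K v) (F : Finset ℕ) (x : X) :
    ∑ k ∈ F, ‖v k x‖ ^ 2 ≤ (K * ‖x‖) ^ 2 := by
  have hK : 0 ≤ K := (norm_nonneg _).trans (hv.norm_le 0)
  set s := ∑ k ∈ F, ‖v k x‖ ^ 2 with hs
  have hs0 : 0 ≤ s := Finset.sum_nonneg fun _ _ => by positivity
  have h1 : (s : 𝕜) = (∑ k ∈ F, (starRingEnd 𝕜 (v k x)) • v k) x := by
    rw [sum_apply, hs]
    push_cast
    refine Finset.sum_congr rfl fun k _ => ?_
    rw [Pi.smul_apply, smul_eq_mul, RCLike.conj_mul]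
  have h2 : s ≤ K * √s * ‖x‖ := by
    calc s = ‖(s : 𝕜)‖ := by rw [RCLike.norm_ofReal, abs_of_nonneg hs0]
      _ ≤ ‖∑ k ∈ F, (starRingEnd 𝕜 (v k x)) • v k‖ * ‖x‖ := by
          rw [h1]; exact ContinuousLinearMap.le_opNorm _ _
      _ ≤ (K * √(∑ k ∈ F, ‖starRingEnd 𝕜 (v k x)‖ ^ 2)) * ‖x‖ := by
          gcongr; exact hv F _
      _ = K * √s * ‖x‖ := by simp only [RCLike.norm_conj]; rfl
  rcases eq_or_lt_of_le hs0 with h0 | h0
  · rw [← h0]; positivity
  · have h3 : 0 < √s := Real.sqrt_pos.2 h0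
    have h4 : √s * √s = s := Real.mul_self_sqrt hs0
    have h5 : √s ≤ K * ‖x‖ := by
      by_contra hcon
      rw [not_le] at hcon
      nlinarith
    calc s = √s ^ 2 := by rw [sq, h4]
      _ ≤ _ := by gcongr

section op

variable [CompleteSpace X] {K : ℝ} {w : ℕ → X} {v : ℕ → X →L[𝕜] 𝕜}

theorem summable_op (hw : UpperTwo 𝕜 K w) (hv : UpperTwo 𝕜 K v) (I : Set ℕ) (x : X) :
    Summable fun k => (I.indicator (fun k => v k x) k) • w k := by
  have hK : 0 ≤ K := (norm_nonneg _).trans (hw.norm_le 0)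
  have h0 : ∀ k, ‖I.indicator (fun k => v k x) k‖ ≤ ‖v k x‖ := fun k =>
    norm_indicator_le_norm_self _ _
  have hs : Summable fun k => ‖I.indicator (fun k => v k x) k‖ ^ 2 :=
    summable_of_sum_le (fun _ => by positivity) (c := (K * ‖x‖) ^ 2) fun F =>
      (Finset.sum_le_sum fun k _ => by gcongr; exact h0 k).trans (bessel hv F x)
  rw [summable_iff_vanishing_norm]
  intro ε hε
  obtain ⟨s, hs'⟩ := summable_iff_vanishing_norm.1 hs ((ε / (K + 1)) ^ 2) (by positivity)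
  refine ⟨s, fun t ht => ?_⟩
  have h1 := hs' t ht
  rw [Real.norm_of_nonneg (Finset.sum_nonneg fun _ _ => by positivity)] at h1
  have h2 : √(∑ k ∈ t, ‖I.indicator (fun k => v k x) k‖ ^ 2) < ε / (K + 1) := by
    rw [← Real.sqrt_sq (show 0 ≤ ε / (K + 1) by positivity)]
    exact Real.sqrt_lt_sqrt (Finset.sum_nonneg fun _ _ => by positivity) h1
  calc _ ≤ K * √(∑ k ∈ t, ‖I.indicator (fun k => v k x) k‖ ^ 2) := hw t _
    _ ≤ K * (ε / (K + 1)) := by gcongr
    _ < ε := by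
        rw [← mul_div_assoc, div_lt_iff₀ (by positivity)]
        nlinarith

/-- The operator `x ↦ ∑_{k ∈ I} v k (x) • w k`. -/
def blockOp (hw : UpperTwo 𝕜 K w) (hv : UpperTwo 𝕜 K v) (I : Set ℕ) : X →L[𝕜] X :=
  LinearMap.mkContinuous
    { toFun := fun x => ∑' k, (I.indicator (fun k => v k x) k) • w k
      map_add' := fun x y => by
        rw [← (summable_op hw hv I x).tsum_add (summable_op hw hv I y)]
        refine tsum_congr fun k => ?_
        rw [← add_smul]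
        congr 1
        by_cases hk : k ∈ I <;> simp [hk]
      map_smul' := fun c x => by
        rw [RingHom.id_apply, ← (summable_op hw hv I x).tsum_const_smul c]
        refine tsum_congr fun k => ?_
        rw [smul_smul]
        congr 1
        by_cases hk : k ∈ I <;> simp [hk] } (K * K)
    (fun x => by
      have hK : 0 ≤ K := (norm_nonneg _).trans (hw.norm_le 0)
      refine le_of_tendsto (summable_op hw hv I x).hasSum.norm
        (Filter.Eventually.of_forall fun F => ?_)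
      calc _ ≤ K * √(∑ k ∈ F, ‖I.indicator (fun k => v k x) k‖ ^ 2) := hw F _
        _ ≤ K * √((K * ‖x‖) ^ 2) := by
            gcongr
            exact (Finset.sum_le_sum fun k _ => by
              gcongr; exact norm_indicator_le_norm_self _ _).trans (bessel hv F x)
        _ = K * K * ‖x‖ := by rw [Real.sqrt_sq (by positivity)]; ring)

theorem blockOp_apply (hw : UpperTwo 𝕜 K w) (hv : UpperTwo 𝕜 K v) (I : Set ℕ) (x : X) :
    blockOp hw hv I x = ∑' k, (I.indicator (fun k => v k x) k) • w k := rfl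

/-- The operator is almost diagonal on vectors with small off-diagonal coefficients. -/
theorem blockOp_error (hw : UpperTwo 𝕜 K w) (hv : UpperTwo 𝕜 K v) (I : Set ℕ) (x : X) {n : ℕ}
    (hn : n ∈ I) {δ : ℝ}
    (h : ∀ F : Finset ℕ, (∀ k ∈ F, k ∈ I ∧ k ≠ n) → ∑ k ∈ F, ‖v k x‖ ^ 2 ≤ δ ^ 2) (hδ : 0 ≤ δ) :
    ‖blockOp hw hv I x - v n x • w n‖ ≤ K * δ := by
  classical
  have hK : 0 ≤ K := (norm_nonneg _).trans (hw.norm_le 0)
  rw [blockOp_apply]
  refine le_of_tendsto ((summable_op hw hv I x).hasSum.sub_const (v n x • w n)).norm ?_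
  filter_upwards [Filter.eventually_ge_atTop ({n} : Finset ℕ)] with F hF
  have hnF : n ∈ F := hF (Finset.mem_singleton_self n)
  rw [← Finset.add_sum_erase F _ hnF, indicator_of_mem hn, add_sub_cancel_left]
  calc _ ≤ K * √(∑ k ∈ F.erase n, ‖I.indicator (fun k => v k x) k‖ ^ 2) := hw _ _
    _ ≤ K * √(δ ^ 2) := by
        gcongr
        have h1 : ∑ k ∈ F.erase n, ‖I.indicator (fun k => v k x) k‖ ^ 2 =
            ∑ k ∈ (F.erase n).filter (fun k => k ∈ I), ‖v k x‖ ^ 2 := by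
          rw [Finset.sum_filter]
          refine Finset.sum_congr rfl fun k _ => ?_
          by_cases hk : k ∈ I <;> simp [hk]
        rw [h1]
        refine h _ fun k hk => ?_
        rw [Finset.mem_filter, Finset.mem_erase] at hk
        exact ⟨hk.2, hk.1.1⟩
    _ = K * δ := by rw [Real.sqrt_sq hδ]

variable {U : Ultrafilter ℕ}

/-- The rank one operator `y ↦ (lim_U v n (y n)) (w n)_U`. -/
def rankOne (U : Ultrafilter ℕ) (w : ℕ → X) (v : ℕ → X →L[𝕜] 𝕜) (C : ℝ) (hC : 0 ≤ C)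
    (hw : ∀ n, ‖w n‖ ≤ C) (hv : ∀ n, ‖v n‖ ≤ C) : Ultrapower 𝕜 X U →L[𝕜] Ultrapower 𝕜 X U :=
  (ultraFun U v C hC hv).smulRight (cls 𝕜 U (mkSeq w C hw))

theorem rankOne_mem (hU : NonPrincipal U) (hs : IsSelective U) (hw : UpperTwo 𝕜 K w)
    (hv : UpperTwo 𝕜 K v) (hK : 0 ≤ K) :
    rankOne U w v K hK hw.norm_le hv.norm_le ∈ wotClosure 𝕜 X U := by
  classical
  refine mem_wotClosure_of_approx fun G ε hε => ?_
  choose rep hrep using cls_surjective (𝕜 := 𝕜) (X := X) (U := U)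
  set δ := ε / (2 * (K + 1)) with hδ
  have hδ0 : 0 < δ := by positivity
  obtain ⟨I, hI, hI'⟩ := select hU hs (α := fun k n => ∑ y ∈ G, ‖v k (rep y n)‖ ^ 2)
    (fun k n => Finset.sum_nonneg fun _ _ => by positivity)
    (C := ∑ y ∈ G, (K * ‖rep y‖) ^ 2) (fun n F => by
      rw [Finset.sum_comm]
      refine Finset.sum_le_sum fun y _ => (bessel hv F _).trans ?_
      gcongr
      exact (rep y).norm_coe_le_norm n) (ε := δ ^ 2) (by positivity)
  refine ⟨blockOp hw hv I, fun y hy => ?_⟩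
  have e1 : ultraMap U (blockOp hw hv I) y - rankOne U w v K hK hw.norm_le hv.norm_le y =
      cls 𝕜 U (seqMap (blockOp hw hv I) (rep y) -
        (ultraFun U v K hK hv.norm_le y) • mkSeq w K hw.norm_le) := by
    conv_lhs => rw [← hrep y]
    rw [hrep y]
    nth_rewrite 1 [← hrep y]
    rfl
  rw [e1]
  refine norm_cls_le hε.le ?_
  have h1 : Tendsto (fun n => v n (rep y n)) U (𝓝 (ultraFun U v K hK hv.norm_le y)) := by
    have := ultraFun_tendsto U v K hK hv.norm_le (rep y)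
    rwa [hrep y] at this
  have h2 := (tendsto_iff_norm_sub_tendsto_zero.1 h1).eventually (gt_mem_nhds hδ0)
  filter_upwards [hI, h2] with n hn hn2
  have h3 := blockOp_error hw hv I (rep y n) hn (δ := δ) (fun F hF =>
    (Finset.sum_le_sum fun k _ => Finset.single_le_sum (f := fun y => ‖v k (rep y n)‖ ^ 2)
      (fun _ _ => by positivity) hy).trans (hI' n hn F hF)) hδ0.le
  have h4 : (seqMap (blockOp hw hv I) (rep y) -
        (ultraFun U v K hK hv.norm_le y) • mkSeq w K hw.norm_le) n =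
      (blockOp hw hv I (rep y n) - v n (rep y n) • w n) +
        (v n (rep y n) - ultraFun U v K hK hv.norm_le y) • w n := by
    rw [BoundedContinuousFunction.sub_apply, BoundedContinuousFunction.smul_apply, seqMap_apply,
      mkSeq_apply, sub_smul]
    abel
  rw [h4]
  calc _ ≤ ‖blockOp hw hv I (rep y n) - v n (rep y n) • w n‖ +
        ‖(v n (rep y n) - ultraFun U v K hK hv.norm_le y) • w n‖ := norm_add_le _ _
    _ ≤ K * δ + δ * K := by
        rw [norm_smul]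
        gcongr
        exact hw.norm_le n
    _ ≤ ε := by
        have : (K + 1) * δ = ε / 2 := by rw [hδ]; field_simp
        nlinarith

/-- Choice of signs. -/
theorem exists_signs (b : ℕ → ℕ → 𝕜) (J : Finset ℕ) : ∃ s : ℕ → ℝ, (∀ n, s n = 1 ∨ s n = -1) ∧
    ∑ n ∈ J, RCLike.re (b n n) ≤ RCLike.re (∑ n ∈ J, ∑ k ∈ J, (s n : 𝕜) * (s k : 𝕜) * b n k) := by
  classical
  induction J using Finset.induction_on with
  | empty => exact ⟨fun _ => 1, fun _ => Or.inl rfl, by simp⟩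
  | insert j J hj ih =>
    obtain ⟨s, hs, h⟩ := ih
    set c : ℝ := RCLike.re (∑ k ∈ J, (s k : 𝕜) * (b j k + b k j)) with hc
    obtain ⟨t, ht, htc⟩ : ∃ t : ℝ, (t = 1 ∨ t = -1) ∧ 0 ≤ t * c := by
      rcases le_total 0 c with h0 | h0
      · exact ⟨1, Or.inl rfl, by simpa using h0⟩
      · exact ⟨-1, Or.inr rfl, by linarith⟩
    refine ⟨Function.update s j t, fun n => ?_, ?_⟩
    · by_cases hn : n = j
      · subst hn; simpa using ht
      · rw [Function.update_of_ne hn]; exact hs n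
    · have hs' : ∀ n ∈ J, Function.update s j t n = s n := fun n hn =>
        Function.update_of_ne (fun h => hj (by rw [← h]; exact hn)) _ _
      have ht2 : (t : 𝕜) * (t : 𝕜) = 1 := by
        rcases ht with rfl | rfl <;> simp
      rw [Finset.sum_insert hj, Finset.sum_insert hj, Finset.sum_insert hj]
      have e1 : ∑ k ∈ J, ((Function.update s j t j : ℝ) : 𝕜) * ((Function.update s j t k : ℝ) : 𝕜) *
          b j k = ∑ k ∈ J, (t : 𝕜) * ((s k : 𝕜) * b j k) := by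
        refine Finset.sum_congr rfl fun k hk => ?_
        rw [hs' k hk, Function.update_self]; ring
      have e2 : ∑ n ∈ J, ∑ k ∈ insert j J, ((Function.update s j t n : ℝ) : 𝕜) *
          ((Function.update s j t k : ℝ) : 𝕜) * b n k =
          ∑ n ∈ J, (t : 𝕜) * ((s n : 𝕜) * b n j) +
            ∑ n ∈ J, ∑ k ∈ J, (s n : 𝕜) * (s k : 𝕜) * b n k := by
        rw [← Finset.sum_add_distrib]
        refine Finset.sum_congr rfl fun n hn => ?_
        rw [Finset.sum_insert hj, hs' n hn, Function.update_self]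
        congr 1
        · ring
        · refine Finset.sum_congr rfl fun k hk => ?_
          rw [hs' k hk]
      rw [e1, e2, Function.update_self, ht2, one_mul]
      have e3 : RCLike.re (∑ k ∈ J, (t : 𝕜) * ((s k : 𝕜) * b j k)) +
          RCLike.re (∑ n ∈ J, (t : 𝕜) * ((s n : 𝕜) * b n j)) = t * c := by
        rw [← map_add, ← Finset.sum_add_distrib, hc, ← RCLike.re_ofReal_mul, Finset.mul_sum]
        congr 1
        refine Finset.sum_congr rfl fun k _ => ?_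
        ring
      simp only [map_add] at e3 ⊢
      linarith

/-- **The abstract construction.** -/
theorem abstract_main (hU : NonPrincipal U) (hs : IsSelective U) {K : ℝ} (hK : 0 ≤ K)
    (w : ℕ → ℕ → X) (v : ℕ → ℕ → X →L[𝕜] 𝕜) (hw : ∀ m, UpperTwo 𝕜 K (w m))
    (hv : ∀ m, UpperTwo 𝕜 K (v m)) (γ : ℕ → ℝ) (hγ0 : ∀ m, 0 ≤ γ m)
    (a b : ℕ → ℝ) (ha : ∀ m n, ‖w m n‖ ≤ a m) (hb : ∀ m n, ‖v m n‖ ≤ b m)
    (hsum : Summable fun m => γ m * (a m * b m))
    (x : ℕ → ℕ → X) (y : ℕ → ℕ → X →L[𝕜] 𝕜) (hx : ∀ m n, ‖x m n‖ ≤ K) (hy : ∀ m n, ‖y m n‖ ≤ K)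
    (p q : ℕ → ℕ → ℝ) (hp0 : ∀ i m, 0 ≤ p i m) (hq0 : ∀ i m, 0 ≤ q i m)
    (hp : ∀ i m n, v i n (x m n) = (p i m : 𝕜)) (hq : ∀ i m n, y m n (w i n) = (q i m : 𝕜))
    (ρ κ : ℕ → ℝ) (hρ : ∀ m, ρ m ≤ p m m * q m m)
    (hκ : ∀ m, ∃ N : ℕ, 0 < N ∧ ∀ J : Finset ℕ, J.card = N → ∀ s : ℕ → ℝ, (∀ n, s n = 1 ∨ s n = -1) →
      ‖∑ n ∈ J, (s n : 𝕜) • x m n‖ * ‖∑ n ∈ J, (s n : 𝕜) • y m n‖ ≤ κ m * N)
    (hunb : ∀ r : ℝ, ∃ m, r * κ m < γ m * ρ m) :
    ∃ S ∈ wotClosure 𝕜 X U, ∀ r : ℝ, S ∉ wotClosureBdd 𝕜 X U r := by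
  classical
  have ha0 : ∀ m, 0 ≤ a m := fun m => (norm_nonneg _).trans (ha m 0)
  have hb0 : ∀ m, 0 ≤ b m := fun m => (norm_nonneg _).trans (hb m 0)
  let R : ℕ → Ultrapower 𝕜 X U →L[𝕜] Ultrapower 𝕜 X U := fun m =>
    rankOne U (w m) (v m) K hK (hw m).norm_le (hv m).norm_le
  have hRn : ∀ m, ‖R m‖ ≤ a m * b m := by
    intro m
    refine ContinuousLinearMap.opNorm_le_bound _ (mul_nonneg (ha0 m) (hb0 m)) fun z => ?_
    obtain ⟨z, rfl⟩ := cls_surjective z
    change ‖ultraFun U (v m) K hK (hv m).norm_le (cls 𝕜 U z) •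
      cls 𝕜 U (mkSeq (w m) K (hw m).norm_le)‖ ≤ _
    rw [norm_smul]
    have h1 : ‖ultraFun U (v m) K hK (hv m).norm_le (cls 𝕜 U z)‖ ≤ b m * ‖cls 𝕜 U z‖ := by
      refine le_of_tendsto_of_tendsto (ultraFun_tendsto U _ K hK (hv m).norm_le z).norm
        ((tendsto_norm_cls (𝕜 := 𝕜) (U := U) z).const_mul (b m))
        (Filter.Eventually.of_forall fun n => ?_)
      exact ((v m n).le_opNorm _).trans (mul_le_mul_of_nonneg_right (hb m n) (norm_nonneg _))
    have h2 : ‖cls 𝕜 U (mkSeq (w m) K (hw m).norm_le)‖ ≤ a m :=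
      norm_cls_le (ha0 m) (Filter.Eventually.of_forall fun n => ha m n)
    calc _ ≤ (b m * ‖cls 𝕜 U z‖) * a m :=
          mul_le_mul h1 h2 (norm_nonneg _) (mul_nonneg (hb0 m) (norm_nonneg _))
      _ = _ := by ring
  have hsummable : Summable fun m => (γ m : 𝕜) • R m := by
    refine Summable.of_norm_bounded hsum fun m => ?_
    rw [norm_smul, RCLike.norm_ofReal, abs_of_nonneg (hγ0 m)]
    exact mul_le_mul_of_nonneg_left (hRn m) (hγ0 m)
  obtain ⟨S, hS⟩ := hsummable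
  have hmem : ∀ m, R m ∈ wotClosure 𝕜 X U := fun m => rankOne_mem hU hs (hw m) (hv m) hK
  refine ⟨S, mem_wotClosure_of_hasSum (fun m => (γ m : 𝕜)) R hmem hS, fun r hr => ?_⟩
  obtain ⟨m, hm⟩ := hunb r
  -- test vectors
  set xs := mkSeq (x m) K (hx m) with hxs
  set ψ := ultraFun U (y m) K hK (hy m) with hψ
  -- the value at S
  have hval : HasSum (fun i => γ i * (p i m * q i m)) (RCLike.re (ψ (S (cls 𝕜 U xs)))) := by
    have h1 : HasSum (fun i => ψ (((γ i : 𝕜) • R i) (cls 𝕜 U xs))) (ψ (S (cls 𝕜 U xs))) :=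
      (hS.mapL (ContinuousLinearMap.apply 𝕜 _ (cls 𝕜 U xs))).mapL ψ
    have e0 : (fun i => γ i * (p i m * q i m)) =
        fun i => RCLike.re (ψ (((γ i : 𝕜) • R i) (cls 𝕜 U xs))) := by
      funext i
      have e1 : ultraFun U (v i) K hK (hv i).norm_le (cls 𝕜 U xs) = (p i m : 𝕜) := by
        refine tendsto_nhds_unique (ultraFun_tendsto U _ K hK (hv i).norm_le xs) ?_
        refine tendsto_const_nhds.congr fun n => ?_
        rw [hxs, mkSeq_apply, hp]
      have e2 : ψ (cls 𝕜 U (mkSeq (w i) K (hw i).norm_le)) = (q i m : 𝕜) := by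
        refine tendsto_nhds_unique (ultraFun_tendsto U _ K hK (hy m) _) ?_
        refine tendsto_const_nhds.congr fun n => ?_
        rw [mkSeq_apply, hq]
      have e3 : ((γ i : 𝕜) • R i) (cls 𝕜 U xs) = (γ i : 𝕜) •
          (ultraFun U (v i) K hK (hv i).norm_le (cls 𝕜 U xs) •
            cls 𝕜 U (mkSeq (w i) K (hw i).norm_le)) := rfl
      rw [e3, ψ.map_smul, ψ.map_smul, e1, e2, smul_eq_mul, smul_eq_mul,
        ← RCLike.ofReal_mul, ← RCLike.ofReal_mul, RCLike.ofReal_re]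
    rw [e0]
    exact h1.mapL (RCLike.reCLM (K := 𝕜))
  have hlow : γ m * ρ m ≤ RCLike.re (ψ (S (cls 𝕜 U xs))) := by
    refine le_trans (mul_le_mul_of_nonneg_left (hρ m) (hγ0 m)) ?_
    exact le_hasSum hval m fun i _ => mul_nonneg (hγ0 i) (mul_nonneg (hp0 i m) (hq0 i m))
  set A := RCLike.re (ψ (S (cls 𝕜 U xs))) with hA
  obtain ⟨ε, hε, hε'⟩ : ∃ ε : ℝ, 0 < ε ∧ r * κ m < γ m * ρ m - ε :=
    ⟨(γ m * ρ m - r * κ m) / 2, by linarith, by linarith⟩
  -- an approximating operator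
  have hcont : Continuous fun Q : Ultrapower 𝕜 X U →WOT[𝕜] Ultrapower 𝕜 X U =>
      RCLike.re (ψ (Q (cls 𝕜 U xs))) :=
    RCLike.continuous_re.comp (ContinuousLinearMapWOT.continuous_dual_apply _ _)
  have hopen : IsOpen {Q : Ultrapower 𝕜 X U →WOT[𝕜] Ultrapower 𝕜 X U |
      A - ε < RCLike.re (ψ (Q (cls 𝕜 U xs)))} := isOpen_lt continuous_const hcont
  obtain ⟨Q, hQ, T, hT, rfl⟩ := mem_closure_iff.1 hr _ hopen (by
    change A - ε < A
    linarith)
  have hr0 : 0 ≤ r := (norm_nonneg _).trans hT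
  have hQ' : A - ε < RCLike.re (ψ (cls 𝕜 U (seqMap T xs))) := hQ
  have hlim : Tendsto (fun n => RCLike.re (y m n (T (x m n)))) U
      (𝓝 (RCLike.re (ψ (cls 𝕜 U (seqMap T xs))))) :=
    (RCLike.continuous_re.tendsto _).comp (ultraFun_tendsto U (y m) K hK (hy m) (seqMap T xs))
  have hV : {n | A - ε < RCLike.re (y m n (T (x m n)))} ∈ U := hlim.eventually (lt_mem_nhds hQ')
  have hVinf : {n | A - ε < RCLike.re (y m n (T (x m n)))}.Infinite := fun hfin =>
    hU.finite_notMem hfin hV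
  obtain ⟨N, hN, hN'⟩ := hκ m
  obtain ⟨J, hJV, hJN⟩ := hVinf.exists_subset_card_eq N
  obtain ⟨s, hs1, hs2⟩ := exists_signs (fun n k => y m n (T (x m k))) J
  have h1 : (N : ℝ) * (A - ε) ≤ ∑ n ∈ J, RCLike.re (y m n (T (x m n))) := by
    rw [← hJN, ← nsmul_eq_mul]
    exact Finset.card_nsmul_le_sum _ _ _ fun n hn => (hJV hn).le
  have h2 : ∑ n ∈ J, ∑ k ∈ J, (s n : 𝕜) * (s k : 𝕜) * y m n (T (x m k)) =
      (∑ n ∈ J, (s n : 𝕜) • y m n) (T (∑ k ∈ J, (s k : 𝕜) • x m k)) := by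
    rw [sum_apply]
    refine Finset.sum_congr rfl fun n _ => ?_
    have e4 : ∀ z, ((s n : 𝕜) • y m n) z = (s n : 𝕜) * y m n z := fun z => rfl
    rw [e4, map_sum, map_sum, Finset.mul_sum]
    refine Finset.sum_congr rfl fun k _ => ?_
    rw [map_smul, map_smul, smul_eq_mul]
    ring
  have h3 : RCLike.re ((∑ n ∈ J, (s n : 𝕜) • y m n) (T (∑ k ∈ J, (s k : 𝕜) • x m k))) ≤
      r * (κ m * N) := by
    calc _ ≤ ‖(∑ n ∈ J, (s n : 𝕜) • y m n) (T (∑ k ∈ J, (s k : 𝕜) • x m k))‖ :=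
          RCLike.re_le_norm _
      _ ≤ ‖∑ n ∈ J, (s n : 𝕜) • y m n‖ * (‖T‖ * ‖∑ k ∈ J, (s k : 𝕜) • x m k‖) :=
          (ContinuousLinearMap.le_opNorm _ _).trans (by gcongr; exact T.le_opNorm _)
      _ ≤ ‖∑ n ∈ J, (s n : 𝕜) • y m n‖ * (r * ‖∑ k ∈ J, (s k : 𝕜) • x m k‖) := by gcongr
      _ = r * (‖∑ n ∈ J, (s n : 𝕜) • x m n‖ * ‖∑ n ∈ J, (s n : 𝕜) • y m n‖) := by ring
      _ ≤ _ := mul_le_mul_of_nonneg_left (hN' J hJN s hs1) hr0
  rw [h2] at hs2
  have h4 : (N : ℝ) * (A - ε) ≤ N * (r * κ m) := by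
    calc _ ≤ _ := h1
      _ ≤ _ := hs2
      _ ≤ _ := h3
      _ = _ := by ring
  have h5 := le_of_mul_le_mul_left h4 (by exact_mod_cast hN)
  linarith

end op

end

end Pool.Agent.V7H85.UP
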