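import Mathlib

/-! Independent random variables on the unit interval and exponential moments. -/

set_option autoImplicit false

open Filter Topology Set MeasureTheory ProbabilityTheory
open scoped ENNReal unitInterval

namespace Pool.Agent.V7H85.UP

noncomputable section

/-- The function which is `1` on `(0, δ]`, `-1` on `[-δ, 0)` and `0` elsewhere. -/
def hfun (δ : ℝ) (x : ℝ) : ℝ :=
  (Ioc 0 δ).indicator (fun _ => (1 : ℝ)) x - (Ico (-δ) 0).indicator (fun _ => (1 : ℝ)) x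

theorem measurable_hfun (δ : ℝ) : Measurable (hfun δ) :=
  (measurable_const.indicator measurableSet_Ioc).sub (measurable_const.indicator measurableSet_Ico)

theorem hfun_cases (δ x : ℝ) :
    (x ∈ Ioc 0 δ ∧ x ∉ Ico (-δ) 0 ∧ hfun δ x = 1) ∨ (x ∉ Ioc 0 δ ∧ x ∈ Ico (-δ) 0 ∧ hfun δ x = -1) ∨
      (x ∉ Ioc 0 δ ∧ x ∉ Ico (-δ) 0 ∧ hfun δ x = 0) := by
  unfold hfun
  by_cases h1 : x ∈ Ioc 0 δ
  · have h2 : x ∉ Ico (-δ) 0 := fun h => by linarith [h1.1, h.2]
    left
    refine ⟨h1, h2, ?_⟩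
    rw [indicator_of_mem h1, indicator_of_notMem h2]; norm_num
  · by_cases h2 : x ∈ Ico (-δ) 0
    · right; left
      refine ⟨h1, h2, ?_⟩
      rw [indicator_of_notMem h1, indicator_of_mem h2]; norm_num
    · right; right
      refine ⟨h1, h2, ?_⟩
      rw [indicator_of_notMem h1, indicator_of_notMem h2]; norm_num

theorem abs_hfun_le (δ x : ℝ) : |hfun δ x| ≤ 1 := by
  rcases hfun_cases δ x with ⟨_, _, h⟩ | ⟨_, _, h⟩ | ⟨_, _, h⟩ <;> rw [h] <;> norm_num

theorem hfun_mul {δ δ' : ℝ} (h : δ ≤ δ') (x : ℝ) : hfun δ x * hfun δ' x = hfun δ x ^ 2 := by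
  rcases hfun_cases δ x with ⟨h1, _, e⟩ | ⟨_, h2, e⟩ | ⟨_, _, e⟩
  · have : hfun δ' x = 1 := by
      rcases hfun_cases δ' x with ⟨_, _, e⟩ | ⟨_, h4, e⟩ | ⟨h3, _, e⟩
      · exact e
      · linarith [h1.1, h4.2]
      · exact absurd ⟨h1.1, h1.2.trans h⟩ h3
    rw [e, this]; norm_num
  · have : hfun δ' x = -1 := by
      rcases hfun_cases δ' x with ⟨h3, _, e⟩ | ⟨_, h4, e⟩ | ⟨_, h4, e⟩
      · linarith [h2.2, h3.1]
      · exact e
      · exact absurd ⟨by linarith [h2.1], h2.2⟩ h4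
    rw [e, this]; norm_num
  · rw [e]; norm_num

/-- The uniform distribution on `[-1, 1]`. -/
def mu0 : Measure ℝ := (2 : ℝ≥0∞)⁻¹ • volume.restrict (Icc (-1 : ℝ) 1)

instance : IsProbabilityMeasure mu0 := by
  constructor
  rw [mu0, Measure.smul_apply, Measure.restrict_apply_univ, Real.volume_Icc, smul_eq_mul]
  rw [show (1 : ℝ) - -1 = 2 by norm_num, ENNReal.ofReal_ofNat, ENNReal.inv_mul_cancel] <;> simp

theorem mu0_Ioc {δ : ℝ} (h0 : 0 < δ) (h1 : δ ≤ 1) : mu0.real (Ioc 0 δ) = δ / 2 := by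
  rw [measureReal_def, mu0, Measure.smul_apply, Measure.restrict_apply measurableSet_Ioc]
  have : Ioc 0 δ ∩ Icc (-1 : ℝ) 1 = Ioc 0 δ :=
    inter_eq_left.2 fun x hx => ⟨by linarith [hx.1], by linarith [hx.2]⟩
  rw [this, Real.volume_Ioc, smul_eq_mul, ENNReal.toReal_mul, ENNReal.toReal_inv,
    ENNReal.toReal_ofReal (by linarith)]
  simp; ring

theorem mu0_Ico {δ : ℝ} (h0 : 0 < δ) (h1 : δ ≤ 1) : mu0.real (Ico (-δ) 0) = δ / 2 := by
  rw [measureReal_def, mu0, Measure.smul_apply, Measure.restrict_apply measurableSet_Ico]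
  have : Ico (-δ) 0 ∩ Icc (-1 : ℝ) 1 = Ico (-δ) 0 :=
    inter_eq_left.2 fun x hx => ⟨by linarith [hx.1], by linarith [hx.2]⟩
  rw [this, Real.volume_Ico, smul_eq_mul, ENNReal.toReal_mul, ENNReal.toReal_inv,
    ENNReal.toReal_ofReal (by linarith)]
  simp; ring

/-- Integrals of functions of `hfun δ`. -/
theorem integral_hfun {δ : ℝ} (h0 : 0 < δ) (h1 : δ ≤ 1) (G : ℝ → ℝ) :
    ∫ x, G (hfun δ x) ∂mu0 = G 0 + (G 1 - G 0) * (δ / 2) + (G (-1) - G 0) * (δ / 2) := by
  have e : ∀ x, G (hfun δ x) = G 0 + (Ioc 0 δ).indicator (fun _ => G 1 - G 0) x +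
      (Ico (-δ) 0).indicator (fun _ => G (-1) - G 0) x := by
    intro x
    rcases hfun_cases δ x with ⟨h1, h2, e⟩ | ⟨h1, h2, e⟩ | ⟨h1, h2, e⟩
    · rw [e, indicator_of_mem h1, indicator_of_notMem h2]; ring
    · rw [e, indicator_of_notMem h1, indicator_of_mem h2]; ring
    · rw [e, indicator_of_notMem h1, indicator_of_notMem h2]; ring
  simp_rw [e]
  have i1 : Integrable ((Ioc 0 δ).indicator fun _ : ℝ => G 1 - G 0) mu0 :=
    (integrable_const _).indicator measurableSet_Ioc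
  have i2 : Integrable ((Ico (-δ) 0).indicator fun _ : ℝ => G (-1) - G 0) mu0 :=
    (integrable_const _).indicator measurableSet_Ico
  have i0 : Integrable (fun x => G 0 + (Ioc 0 δ).indicator (fun _ => G 1 - G 0) x) mu0 :=
    (integrable_const _).add i1
  rw [integral_add i0 i2, integral_add (integrable_const _) i1,
    integral_indicator measurableSet_Ioc, integral_indicator measurableSet_Ico,
    setIntegral_const, setIntegral_const, mu0_Ioc h0 h1, mu0_Ico h0 h1]
  simp only [integral_const, probReal_univ, smul_eq_mul, one_mul]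
  ring

/-- A sequence of independent random variables on the unit interval, uniformly distributed
in `[-1, 1]`. -/
theorem exists_iid_unit : ∃ ξ : ℕ → I → ℝ, (∀ n, Measurable (ξ n)) ∧
    (∀ n, (volume : Measure I).map (ξ n) = mu0) ∧ iIndepFun ξ (volume : Measure I) := by
  obtain ⟨f, hf, hmap⟩ := Measure.exists_measurable_map_eq
    (Measure.infinitePi fun _ : ℕ => mu0)
  have hm : ∀ n, Measurable fun ω => f ω n := fun n => (measurable_pi_apply n).comp hf
  have hlaw : ∀ n, (volume : Measure I).map (fun ω => f ω n) = mu0 := by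
    intro n
    have h1 : (volume : Measure I).map (fun ω => f ω n) =
        ((volume : Measure I).map f).map (fun x => x n) := by
      rw [Measure.map_map (measurable_pi_apply n) hf]; rfl
    rw [h1, hmap]
    exact (measurePreserving_eval_infinitePi (fun _ : ℕ => mu0) n).map_eq
  refine ⟨fun n ω => f ω n, hm, hlaw, ?_⟩
  rw [iIndepFun_iff_map_fun_eq_infinitePi_map hm]
  simp_rw [hlaw]
  exact hmap

section moments

variable {ξ : ℕ → I → ℝ} (hm : ∀ n, Measurable (ξ n))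
  (hlaw : ∀ n, (volume : Measure I).map (ξ n) = mu0) (hind : iIndepFun ξ (volume : Measure I))

include hm hlaw in
theorem integral_comp {δ : ℝ} (h0 : 0 < δ) (h1 : δ ≤ 1) (G : ℝ → ℝ) (hG : Measurable G) (n : ℕ) :
    ∫ ω, G (hfun δ (ξ n ω)) = G 0 + (G 1 - G 0) * (δ / 2) + (G (-1) - G 0) * (δ / 2) := by
  rw [← integral_hfun h0 h1 G, ← hlaw n]
  exact (integral_map (hm n).aemeasurable
    (hG.comp (measurable_hfun δ)).aestronglyMeasurable).symm

include hm hlaw in
theorem integral_exp {δ : ℝ} (h0 : 0 < δ) (h1 : δ ≤ 1) (n : ℕ) (t : ℝ) :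
    ∫ ω, Real.exp (t * hfun δ (ξ n ω)) = 1 + δ * (Real.cosh t - 1) := by
  rw [integral_comp hm hlaw h0 h1 (fun x => Real.exp (t * x)) (by fun_prop) n]
  rw [Real.cosh_eq]
  simp only [mul_zero, Real.exp_zero, mul_one, mul_neg]
  ring

include hm hlaw hind in
/-- Exponential moments of sums. -/
theorem integral_exp_sum {δ : ℝ} (h0 : 0 < δ) (h1 : δ ≤ 1) (F : Finset ℕ) (c : ℕ → ℝ) :
    ∫ ω, Real.exp (∑ n ∈ F, c n * hfun δ (ξ n ω)) = ∏ n ∈ F, (1 + δ * (Real.cosh (c n) - 1)) := by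
  have hind' : iIndepFun (fun n ω => c n * hfun δ (ξ n ω)) (volume : Measure I) :=
    hind.comp (fun n x => c n * hfun δ x) fun n => (measurable_hfun δ).const_mul (c n)
  have h2 := hind'.mgf_sum (t := 1) (fun n => ((measurable_hfun δ).comp (hm n)).const_mul (c n)) F
  simp only [mgf, one_mul, Finset.sum_apply] at h2
  rw [h2]
  exact Finset.prod_congr rfl fun n _ => integral_exp hm hlaw h0 h1 n (c n)

include hm in
theorem measurable_sum (δ : ℝ) (F : Finset ℕ) (c : ℕ → ℝ) :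
    Measurable fun ω => ∑ n ∈ F, c n * hfun δ (ξ n ω) :=
  Finset.measurable_sum F fun n _ => ((measurable_hfun δ).comp (hm n)).const_mul (c n)

theorem abs_sum_le (δ : ℝ) (F : Finset ℕ) (c : ℕ → ℝ) (ω : I) :
    |∑ n ∈ F, c n * hfun δ (ξ n ω)| ≤ ∑ n ∈ F, |c n| := by
  refine (Finset.abs_sum_le_sum_abs _ _).trans (Finset.sum_le_sum fun n _ => ?_)
  rw [abs_mul]
  exact mul_le_of_le_one_right (abs_nonneg _) (abs_hfun_le _ _)

include hm in
theorem integrable_exp_sum (δ : ℝ) (F : Finset ℕ) (c : ℕ → ℝ) :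
    Integrable fun ω => Real.exp (∑ n ∈ F, c n * hfun δ (ξ n ω)) := by
  refine Integrable.of_bound (measurable_sum hm δ F c).exp.aestronglyMeasurable
    (Real.exp (∑ n ∈ F, |c n|)) (Filter.Eventually.of_forall fun ω => ?_)
  rw [Real.norm_of_nonneg (Real.exp_pos _).le]
  exact Real.exp_le_exp.2 ((le_abs_self _).trans (abs_sum_le δ F c ω))

include hm hlaw hind in
theorem integral_cosh_le {δ : ℝ} (h0 : 0 < δ) (h1 : δ ≤ 1) (F : Finset ℕ) (c : ℕ → ℝ) {B : ℝ}
    (hB : ∏ n ∈ F, (1 + δ * (Real.cosh (c n) - 1)) ≤ B) :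
    ∫ ω, Real.cosh (∑ n ∈ F, c n * hfun δ (ξ n ω)) ≤ B := by
  have e1 := integral_exp_sum hm hlaw hind h0 h1 F c
  have e2 := integral_exp_sum hm hlaw hind h0 h1 F (fun n => - c n)
  simp only [Real.cosh_neg, neg_mul, Finset.sum_neg_distrib] at e2
  have e3 : ∫ ω, Real.cosh (∑ n ∈ F, c n * hfun δ (ξ n ω)) =
      ((∫ ω, Real.exp (∑ n ∈ F, c n * hfun δ (ξ n ω))) +
        (∫ ω, Real.exp (-∑ n ∈ F, c n * hfun δ (ξ n ω)))) / 2 := by
    have i2 : Integrable fun ω => Real.exp (-∑ n ∈ F, c n * hfun δ (ξ n ω)) := by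
      have := integrable_exp_sum hm δ F (fun n => - c n)
      simpa only [neg_mul, Finset.sum_neg_distrib] using this
    rw [← integral_add (integrable_exp_sum hm δ F c) i2, ← integral_div]
    simp_rw [Real.cosh_eq]
  rw [e3, e1, e2]
  linarith

end moments

/-- Growth of the hyperbolic cosine. -/
theorem exists_cosh_bound (p : ℝ) : ∃ C : ℝ, 0 < C ∧ ∀ x : ℝ, |x| ^ p ≤ C * Real.cosh x ∨ p < 0 := by
  rcases lt_or_ge p 0 with hp | hp
  · exact ⟨1, one_pos, fun x => Or.inr hp⟩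
  · obtain ⟨n, hn⟩ := exists_nat_ge p
    refine ⟨2 * (1 + n.factorial), by positivity, fun x => Or.inl ?_⟩
    have h1 : |x| ^ p ≤ 1 + |x| ^ n := by
      rcases le_total |x| 1 with h | h
      · have := Real.rpow_le_one (abs_nonneg x) h hp
        have : 0 ≤ |x| ^ n := by positivity
        linarith
      · have := Real.rpow_le_rpow_of_exponent_le h hn
        rw [Real.rpow_natCast] at this
        linarith
    have h2 : |x| ^ n ≤ n.factorial * Real.exp |x| := by
      have := Real.pow_div_factorial_le_exp |x| (abs_nonneg x) n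
      rwa [div_le_iff₀ (by positivity), mul_comm] at this
    have h3 : Real.exp |x| ≤ 2 * Real.cosh x := by
      rw [← Real.cosh_abs, Real.cosh_eq]
      have := Real.exp_pos (-|x|)
      linarith
    have h4 : 1 ≤ Real.exp |x| := Real.one_le_exp (abs_nonneg x)
    have h5 : (0 : ℝ) < n.factorial := by positivity
    nlinarith

end

end Pool.Agent.V7H85.UP
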