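import Mathlib
import Pool.Agent.V7H85.UP.Abstract
import Pool.Agent.V7H85.UP.Prob

/-! The concrete sequences in `L^p[0,1]`. -/

set_option autoImplicit false

open Filter Topology Set MeasureTheory ProbabilityTheory
open scoped ENNReal unitInterval

namespace Pool.Agent.V7H85.UP

noncomputable section

variable (𝕜 : Type*) [RCLike 𝕜] (P : ℝ≥0∞)

/-- The space `L^p[0,1]`. -/
abbrev LpI := Lp 𝕜 P (volume : Measure I)

variable {ξ : ℕ → I → ℝ}

variable {𝕜} {P}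

theorem memLp_ofReal {u : I → ℝ} (hu : Measurable u) {C : ℝ} (hC : ∀ ω, |u ω| ≤ C) :
    MemLp (fun ω => (u ω : 𝕜)) P (volume : Measure I) :=
  MemLp.of_bound (RCLike.measurable_ofReal.comp hu).aestronglyMeasurable C
    (Filter.Eventually.of_forall fun ω => by rw [RCLike.norm_ofReal]; exact hC ω)

variable (𝕜 P) in
/-- The elements `hfun δ (ξ n)` of `L^p[0,1]`. -/
def elt (hm : ∀ n, Measurable (ξ n)) (δ : ℝ) (n : ℕ) : LpI 𝕜 P :=
  (memLp_ofReal (𝕜 := 𝕜) (P := P) ((measurable_hfun δ).comp (hm n))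
    (fun ω => abs_hfun_le δ (ξ n ω))).toLp _

theorem elt_coe (hm : ∀ n, Measurable (ξ n)) (δ : ℝ) (n : ℕ) :
    elt 𝕜 P hm δ n =ᵐ[volume] fun ω => ((hfun δ (ξ n ω) : ℝ) : 𝕜) :=
  MemLp.coeFn_toLp _

/-- Norms in `L^p[0,1]` of bounded real functions. -/
theorem norm_toLp_le (hP1 : 1 ≤ P) (hP : P ≠ ∞) {u : I → ℝ} (hu : Measurable u) {C : ℝ}
    (hC : ∀ ω, |u ω| ≤ C) {B : ℝ} (hB : ∫ ω, |u ω| ^ P.toReal ≤ B) :
    ‖(memLp_ofReal (𝕜 := 𝕜) (P := P) hu hC).toLp _‖ ≤ B ^ (P.toReal)⁻¹ := by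
  have hP0 : P ≠ 0 := (zero_lt_one.trans_le hP1).ne'
  rw [Lp.norm_toLp, MemLp.eLpNorm_eq_integral_rpow_norm hP0 hP (memLp_ofReal hu hC),
    ENNReal.toReal_ofReal (by positivity)]
  simp only [RCLike.norm_ofReal]
  gcongr

section bounds

variable (hm : ∀ n, Measurable (ξ n)) (hlaw : ∀ n, (volume : Measure I).map (ξ n) = mu0)
  (hind : iIndepFun ξ (volume : Measure I))

include hm hlaw in
theorem norm_elt [hP1 : Fact (1 ≤ P)] (hP : P ≠ ∞) {δ : ℝ} (h0 : 0 < δ) (h1 : δ ≤ 1) (n : ℕ) :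
    ‖elt 𝕜 P hm δ n‖ ≤ δ ^ (P.toReal)⁻¹ := by
  have hP0 : 0 < P.toReal := ENNReal.toReal_pos (zero_lt_one.trans_le hP1.out).ne' hP
  refine norm_toLp_le hP1.out hP ((measurable_hfun δ).comp (hm n))
    (fun ω => abs_hfun_le δ (ξ n ω)) ?_
  simp only [Function.comp_apply]
  rw [integral_comp hm hlaw h0 h1 (fun x => |x| ^ P.toReal) (by fun_prop) n]
  simp [Real.zero_rpow hP0.ne']

theorem sum_elt (hm : ∀ n, Measurable (ξ n)) (δ : ℝ) (F : Finset ℕ) (c : ℕ → ℝ) :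
    ∑ n ∈ F, (c n : 𝕜) • elt 𝕜 P hm δ n =
      (memLp_ofReal (𝕜 := 𝕜) (P := P) (measurable_sum hm δ F c) (abs_sum_le δ F c)).toLp _ := by
  classical
  apply Lp.ext
  refine EventuallyEq.trans ?_ (MemLp.coeFn_toLp _).symm
  induction F using Finset.induction_on with
  | empty =>
    simp only [Finset.sum_empty, RCLike.ofReal_zero]
    exact Lp.coeFn_zero _ _ _
  | insert j F hj ih =>
    rw [Finset.sum_insert hj]
    filter_upwards [Lp.coeFn_add ((c j : 𝕜) • elt 𝕜 P hm δ j) (∑ n ∈ F, (c n : 𝕜) • elt 𝕜 P hm δ n),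
      Lp.coeFn_smul (c j : 𝕜) (elt 𝕜 P hm δ j), ih, elt_coe (𝕜 := 𝕜) (P := P) hm δ j] with ω h1 h2 h3 h4
    rw [h1, Pi.add_apply, h2, Pi.smul_apply, h3, h4, Finset.sum_insert hj]
    push_cast
    rw [smul_eq_mul]

/-- The constant in the moment estimates. -/
def kconst (P : ℝ≥0∞) : ℝ :=
  ((Classical.choose (exists_cosh_bound P.toReal)) * Real.exp 1) ^ (P.toReal)⁻¹

theorem kconst_pos (P : ℝ≥0∞) : 0 < kconst P := by
  have := (Classical.choose_spec (exists_cosh_bound P.toReal)).1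
  unfold kconst
  positivity

include hm hlaw hind in
/-- The basic moment estimate. -/
theorem norm_sum_le_of_cosh [hP1 : Fact (1 ≤ P)] (hP : P ≠ ∞) {δ : ℝ} (h0 : 0 < δ) (h1 : δ ≤ 1)
    (F : Finset ℕ) (c : ℕ → ℝ) {a : ℝ} (ha : 0 < a)
    (hB : ∏ n ∈ F, (1 + δ * (Real.cosh (c n / a) - 1)) ≤ Real.exp 1) :
    ‖∑ n ∈ F, (c n : 𝕜) • elt 𝕜 P hm δ n‖ ≤ kconst P * a := by
  have hP0 : 0 < P.toReal := ENNReal.toReal_pos (zero_lt_one.trans_le hP1.out).ne' hP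
  rw [sum_elt]
  obtain ⟨hC0, hC⟩ := Classical.choose_spec (exists_cosh_bound P.toReal)
  set C := Classical.choose (exists_cosh_bound P.toReal) with hCdef
  refine (norm_toLp_le hP1.out hP (B := a ^ P.toReal * (C * Real.exp 1)) (measurable_sum hm δ F c)
    (abs_sum_le δ F c) ?_).trans ?_
  · have e1 : ∀ ω, ∑ n ∈ F, c n * hfun δ (ξ n ω) = a * ∑ n ∈ F, (c n / a) * hfun δ (ξ n ω) := by
      intro ω
      rw [Finset.mul_sum]
      refine Finset.sum_congr rfl fun n _ => ?_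
      field_simp
    have e2 := integral_cosh_le hm hlaw hind h0 h1 F (fun n => c n / a) hB
    calc ∫ ω, |∑ n ∈ F, c n * hfun δ (ξ n ω)| ^ P.toReal
        ≤ ∫ ω, a ^ P.toReal * (C * Real.cosh (∑ n ∈ F, (c n / a) * hfun δ (ξ n ω))) := by
          refine integral_mono_of_nonneg (Filter.Eventually.of_forall fun ω => by positivity) ?_
            (Filter.Eventually.of_forall fun ω => ?_)
          · refine Integrable.const_mul (Integrable.const_mul ?_ _) _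
            have i1 := integrable_exp_sum hm δ F (fun n => c n / a)
            have i2 := integrable_exp_sum hm δ F (fun n => - (c n / a))
            simp only [neg_mul, Finset.sum_neg_distrib] at i2
            simp_rw [Real.cosh_eq]
            exact (i1.add i2).div_const 2
          · beta_reduce
            rw [e1 ω, abs_mul, abs_of_pos ha, Real.mul_rpow ha.le (abs_nonneg _)]
            gcongr
            exact (hC _).resolve_right (not_lt.2 hP0.le)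
      _ = a ^ P.toReal * (C * ∫ ω, Real.cosh (∑ n ∈ F, (c n / a) * hfun δ (ξ n ω))) := by
          rw [integral_const_mul, integral_const_mul]
      _ ≤ a ^ P.toReal * (C * Real.exp 1) := by gcongr
  · rw [Real.mul_rpow (by positivity) (by positivity), ← Real.rpow_mul ha.le,
      mul_inv_cancel₀ hP0.ne', Real.rpow_one, mul_comm]
    rfl

include hm hlaw hind in
/-- The upper 2-estimate for real coefficients. -/
theorem norm_sum_le_real [hP1 : Fact (1 ≤ P)] (hP : P ≠ ∞) {δ : ℝ} (h0 : 0 < δ) (h1 : δ ≤ 1)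
    (F : Finset ℕ) (c : ℕ → ℝ) :
    ‖∑ n ∈ F, (c n : 𝕜) • elt 𝕜 P hm δ n‖ ≤ kconst P * √(∑ n ∈ F, c n ^ 2) := by
  have hs0 : 0 ≤ ∑ n ∈ F, c n ^ 2 := Finset.sum_nonneg fun _ _ => by positivity
  rcases eq_or_lt_of_le hs0 with h | h
  · have hz : ∀ n ∈ F, c n = 0 := by
      intro n hn
      have := (Finset.sum_eq_zero_iff_of_nonneg (fun _ _ => by positivity)).1 h.symm n hn
      exact pow_eq_zero_iff (two_ne_zero) |>.1 this
    rw [Finset.sum_eq_zero fun n hn => by rw [hz n hn, RCLike.ofReal_zero, zero_smul], norm_zero]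
    exact mul_nonneg (kconst_pos P).le (Real.sqrt_nonneg _)
  · refine norm_sum_le_of_cosh hm hlaw hind hP h0 h1 F c (Real.sqrt_pos.2 h) ?_
    set a := √(∑ n ∈ F, c n ^ 2) with ha
    have ha2 : a ^ 2 = ∑ n ∈ F, c n ^ 2 := Real.sq_sqrt hs0
    have ha0 : 0 < a := Real.sqrt_pos.2 h
    calc ∏ n ∈ F, (1 + δ * (Real.cosh (c n / a) - 1)) ≤ ∏ n ∈ F, Real.exp ((c n / a) ^ 2 / 2) := by
          refine Finset.prod_le_prod (fun n _ => ?_) fun n _ => ?_
          · have := Real.one_le_cosh (c n / a)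
            nlinarith
          · have e1 := Real.one_le_cosh (c n / a)
            have e2 := Real.cosh_le_exp_half_sq (c n / a)
            nlinarith
      _ = Real.exp (∑ n ∈ F, (c n / a) ^ 2 / 2) := (Real.exp_sum _ _).symm
      _ ≤ Real.exp 1 := by
          apply Real.exp_le_exp.2
          have : ∑ n ∈ F, (c n / a) ^ 2 / 2 = (∑ n ∈ F, c n ^ 2) / a ^ 2 / 2 := by
            rw [Finset.sum_div, Finset.sum_div]
            refine Finset.sum_congr rfl fun n _ => ?_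
            rw [div_pow]
          rw [this, ha2, div_self h.ne']
          norm_num

include hm hlaw hind in
theorem upperTwo_elt [hP1 : Fact (1 ≤ P)] (hP : P ≠ ∞) {δ : ℝ} (h0 : 0 < δ) (h1 : δ ≤ 1) :
    UpperTwo 𝕜 (2 * kconst P) (elt 𝕜 P hm δ) := by
  intro F c
  have e1 : ∑ n ∈ F, c n • elt 𝕜 P hm δ n =
      ∑ n ∈ F, ((RCLike.re (c n) : ℝ) : 𝕜) • elt 𝕜 P hm δ n +
        (RCLike.I : 𝕜) • ∑ n ∈ F, ((RCLike.im (c n) : ℝ) : 𝕜) • elt 𝕜 P hm δ n := by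
    rw [Finset.smul_sum, ← Finset.sum_add_distrib]
    refine Finset.sum_congr rfl fun n _ => ?_
    rw [smul_smul, ← add_smul]
    congr 1
    rw [mul_comm (RCLike.I : 𝕜), RCLike.re_add_im]
  have h2 : ∀ f : ℕ → ℝ, (∀ n, |f n| ≤ ‖c n‖) → √(∑ n ∈ F, f n ^ 2) ≤ √(∑ n ∈ F, ‖c n‖ ^ 2) := by
    intro f hf
    apply Real.sqrt_le_sqrt
    refine Finset.sum_le_sum fun n _ => ?_
    rw [← sq_abs (f n)]
    exact pow_le_pow_left₀ (abs_nonneg _) (hf n) 2
  have hk := (kconst_pos P).le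
  have hI : ‖(RCLike.I : 𝕜)‖ ≤ 1 := by
    rcases RCLike.I_mul_I (K := 𝕜) with h | h
    · rw [h, norm_zero]; exact zero_le_one
    · have h3 := congrArg norm h
      rw [norm_mul, norm_neg, norm_one] at h3
      nlinarith [norm_nonneg (RCLike.I : 𝕜)]
  calc ‖∑ n ∈ F, c n • elt 𝕜 P hm δ n‖ ≤ ‖∑ n ∈ F, ((RCLike.re (c n) : ℝ) : 𝕜) • elt 𝕜 P hm δ n‖ +
        ‖(RCLike.I : 𝕜) • ∑ n ∈ F, ((RCLike.im (c n) : ℝ) : 𝕜) • elt 𝕜 P hm δ n‖ := by
        rw [e1]; exact norm_add_le _ _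
    _ ≤ kconst P * √(∑ n ∈ F, RCLike.re (c n) ^ 2) + 1 * (kconst P * √(∑ n ∈ F, RCLike.im (c n) ^ 2)) := by
        rw [norm_smul]
        gcongr
        · exact norm_sum_le_real hm hlaw hind hP h0 h1 F _
        · exact norm_sum_le_real hm hlaw hind hP h0 h1 F _
    _ ≤ kconst P * √(∑ n ∈ F, ‖c n‖ ^ 2) + 1 * (kconst P * √(∑ n ∈ F, ‖c n‖ ^ 2)) := by
        exact add_le_add (mul_le_mul_of_nonneg_left (h2 _ fun n => RCLike.abs_re_le_norm _) hk)
          (mul_le_mul_of_nonneg_left (mul_le_mul_of_nonneg_left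
            (h2 _ fun n => RCLike.abs_im_le_norm _) hk) zero_le_one)
    _ = _ := by ring

include hm hlaw hind in
/-- Sums of `2 ^ m` terms with signs. -/
theorem norm_sum_signs [hP1 : Fact (1 ≤ P)] (hP : P ≠ ∞) (m : ℕ) (J : Finset ℕ) (hJ : J.card = 2 ^ m)
    (s : ℕ → ℝ) (hs : ∀ n, s n = 1 ∨ s n = -1) :
    ‖∑ n ∈ J, (s n : 𝕜) • elt 𝕜 P hm ((1 / 2) ^ m) n‖ ≤ kconst P := by
  have h := norm_sum_le_of_cosh (𝕜 := 𝕜) hm hlaw hind hP (δ := (1 / 2) ^ m) (by positivity)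
    (pow_le_one₀ (by norm_num) (by norm_num)) J s one_pos ?_
  · simpa using h
  · have h1 : ∀ n ∈ J, 1 + (1 / 2 : ℝ) ^ m * (Real.cosh (s n / 1) - 1) ≤ Real.exp ((1 / 2) ^ m) := by
      intro n _
      have e1 : Real.cosh (s n / 1) = Real.cosh 1 := by
        rcases hs n with h | h <;> rw [h] <;> simp
      have e2 : Real.cosh 1 ≤ 2 := by
        rw [Real.cosh_eq]
        have := Real.exp_one_lt_d9
        have h3 : Real.exp (-1) ≤ 1 := Real.exp_le_one_iff.2 (by norm_num)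
        linarith
      have e3 := Real.add_one_le_exp ((1 / 2 : ℝ) ^ m)
      have e4 : (0 : ℝ) < (1 / 2) ^ m := by positivity
      rw [e1]
      nlinarith
    calc ∏ n ∈ J, (1 + (1 / 2 : ℝ) ^ m * (Real.cosh (s n / 1) - 1)) ≤
          ∏ _n ∈ J, Real.exp ((1 / 2) ^ m) := by
          refine Finset.prod_le_prod (fun n _ => ?_) h1
          have := Real.one_le_cosh (s n / 1)
          have e4 : (0 : ℝ) < (1 / 2) ^ m := by positivity
          nlinarith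
      _ = Real.exp 1 := by
          rw [Finset.prod_const, hJ, ← Real.exp_nat_mul]
          congr 1
          push_cast
          rw [← mul_pow]; norm_num

end bounds

section pairing

variable {Q : ℝ≥0∞} [hQ1 : Fact (1 ≤ Q)] [hP1 : Fact (1 ≤ P)] [ENNReal.HolderConjugate Q P]

variable (𝕜 P Q) in
/-- The pairing between `L^q` and `L^p`. -/
def pairing : LpI 𝕜 Q →L[𝕜] LpI 𝕜 P →L[𝕜] 𝕜 :=
  (ContinuousLinearMap.mul 𝕜 𝕜).lpPairing volume Q P

theorem pairing_apply (f : LpI 𝕜 Q) (g : LpI 𝕜 P) :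
    pairing 𝕜 P Q f g = ∫ ω, f ω * g ω := by
  unfold pairing
  rw [ContinuousLinearMap.lpPairing_eq_integral]
  rfl

theorem norm_pairing_le (f : LpI 𝕜 Q) : ‖pairing 𝕜 P Q f‖ ≤ ‖f‖ := by
  refine ContinuousLinearMap.opNorm_le_bound _ (norm_nonneg _) fun g => ?_
  have h1 : pairing 𝕜 P Q f g = L1.integral ((ContinuousLinearMap.mul 𝕜 𝕜).holder 1 f g) := by
    rw [L1.integral_eq_integral, pairing_apply]
    exact (integral_congr_ae ((ContinuousLinearMap.mul 𝕜 𝕜).coeFn_holder _ _)).symm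
  rw [h1]
  refine (L1.norm_integral_le _).trans ?_
  have h2 := (ContinuousLinearMap.mul 𝕜 𝕜).norm_holder_apply_apply_le (r := 1) f g
  refine h2.trans ?_
  have h3 := ContinuousLinearMap.opNorm_mul_le 𝕜 𝕜
  calc _ ≤ 1 * ‖f‖ * ‖g‖ := by gcongr
    _ = _ := by ring

variable (hm : ∀ n, Measurable (ξ n)) (hlaw : ∀ n, (volume : Measure I).map (ξ n) = mu0)

include hlaw in
theorem pairing_elt {δ δ' : ℝ} (h0 : 0 < δ) (h1 : δ ≤ δ') (h2 : δ ≤ 1) (n : ℕ) :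
    pairing 𝕜 P Q (elt 𝕜 Q hm δ n) (elt 𝕜 P hm δ' n) = (δ : 𝕜) := by
  rw [pairing_apply]
  have e1 : (fun ω => elt 𝕜 Q hm δ n ω * elt 𝕜 P hm δ' n ω) =ᵐ[volume]
      fun ω => (((hfun δ (ξ n ω)) ^ 2 : ℝ) : 𝕜) := by
    filter_upwards [elt_coe (𝕜 := 𝕜) (P := Q) hm δ n, elt_coe (𝕜 := 𝕜) (P := P) hm δ' n] with ω e2 e3
    rw [e2, e3, ← RCLike.ofReal_mul, hfun_mul h1]
  rw [integral_congr_ae e1, integral_ofReal, integral_comp hm hlaw h0 h2 (fun x => x ^ 2)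
    (by fun_prop) n]
  congr 1
  norm_num

include hlaw in
theorem pairing_elt' {δ δ' : ℝ} (h0 : 0 < δ') (h1 : δ' ≤ δ) (h2 : δ' ≤ 1) (n : ℕ) :
    pairing 𝕜 P Q (elt 𝕜 Q hm δ n) (elt 𝕜 P hm δ' n) = (δ' : 𝕜) := by
  rw [pairing_apply]
  have e1 : (fun ω => elt 𝕜 Q hm δ n ω * elt 𝕜 P hm δ' n ω) =ᵐ[volume]
      fun ω => (((hfun δ' (ξ n ω)) ^ 2 : ℝ) : 𝕜) := by
    filter_upwards [elt_coe (𝕜 := 𝕜) (P := Q) hm δ n, elt_coe (𝕜 := 𝕜) (P := P) hm δ' n] with ω e2 e3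
    rw [e2, e3, ← RCLike.ofReal_mul, mul_comm (hfun δ _), hfun_mul h1]
  rw [integral_congr_ae e1, integral_ofReal, integral_comp hm hlaw h0 h2 (fun x => x ^ 2)
    (by fun_prop) n]
  congr 1
  norm_num

end pairing

theorem UpperTwo.map {Z Z' : Type*} [NormedAddCommGroup Z] [NormedSpace 𝕜 Z]
    [NormedAddCommGroup Z'] [NormedSpace 𝕜 Z'] {K : ℝ} {w : ℕ → Z} (h : UpperTwo 𝕜 K w)
    (f : Z →L[𝕜] Z') (hf : ∀ z, ‖f z‖ ≤ ‖z‖) : UpperTwo 𝕜 K fun n => f (w n) := by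
  intro F c
  have : ∑ n ∈ F, c n • f (w n) = f (∑ n ∈ F, c n • w n) := by
    rw [map_sum]; exact Finset.sum_congr rfl fun n _ => (f.map_smul _ _).symm
  rw [this]
  exact (hf _).trans (h F c)

theorem UpperTwo.mono {Z : Type*} [NormedAddCommGroup Z] [NormedSpace 𝕜 Z] {K K' : ℝ}
    {w : ℕ → Z} (h : UpperTwo 𝕜 K w) (hK : K ≤ K') : UpperTwo 𝕜 K' w := fun F c =>
  (h F c).trans (mul_le_mul_of_nonneg_right hK (Real.sqrt_nonneg _))

end

end Pool.Agent.V7H85.UP
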