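import Mathlib
import Pool.Agent.V7H85.UP.Concrete

/-! The two cases `p > 2` and `p < 2`. -/

set_option autoImplicit false

open Filter Topology Set MeasureTheory ProbabilityTheory
open scoped ENNReal unitInterval

namespace Pool.Agent.V7H85.UP

theorem half_pow_pos (m : ℕ) : (0 : ℝ) < (1 / 2) ^ m := by positivity

theorem half_pow_le (m : ℕ) : (1 / 2 : ℝ) ^ m ≤ 1 := pow_le_one₀ (by norm_num) (by norm_num)

theorem unbounded {θ : ℝ} (hθ : 1 / 2 < θ) (K : ℝ) (r : ℝ) : ∃ m : ℕ,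
    r * (K * (1 / √2) ^ m) < ((2 : ℝ) ^ θ) ^ m * (1 / 2) ^ m := by
  have h2 : (2 : ℝ) ^ (1 / 2 : ℝ) = √2 := (Real.sqrt_eq_rpow 2).symm
  have h1 : 1 < (2 : ℝ) ^ θ / √2 := by
    rw [← h2, ← Real.rpow_sub two_pos]
    exact Real.one_lt_rpow one_lt_two (by linarith)
  obtain ⟨m, hm⟩ := pow_unbounded_of_one_lt (r * K) h1
  refine ⟨m, ?_⟩
  have h3 : (0 : ℝ) < (1 / √2) ^ m := by positivity
  have h4 : ((2 : ℝ) ^ θ) ^ m * (1 / 2) ^ m = ((2 : ℝ) ^ θ / √2) ^ m * (1 / √2) ^ m := by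
    rw [← mul_pow, ← mul_pow]
    congr 1
    have : √2 * √2 = 2 := Real.mul_self_sqrt (by norm_num)
    field_simp
    rw [sq, this]
  rw [h4, ← mul_assoc]
  exact mul_lt_mul_of_pos_right hm h3

theorem summable_weights {θ τ : ℝ} (h : θ < τ) :
    Summable fun m : ℕ => ((2 : ℝ) ^ θ) ^ m * ((1 / 2 : ℝ) ^ m) ^ τ := by
  have h1 : ∀ m : ℕ, ((2 : ℝ) ^ θ) ^ m * ((1 / 2 : ℝ) ^ m) ^ τ = ((2 : ℝ) ^ (θ - τ)) ^ m := by
    intro m
    have e1 : ((1 / 2 : ℝ) ^ m) ^ τ = ((2 : ℝ) ^ (-τ)) ^ m := by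
      rw [← Real.rpow_natCast, ← Real.rpow_mul (by norm_num), mul_comm, Real.rpow_mul (by norm_num),
        Real.rpow_natCast, Real.rpow_neg two_pos.le, one_div, Real.inv_rpow two_pos.le]
    rw [e1, ← mul_pow, ← Real.rpow_add two_pos]
    rfl
  simp_rw [h1]
  exact summable_geometric_of_lt_one (by positivity)
    (Real.rpow_lt_one_of_one_lt_of_neg one_lt_two (by linarith))

section

variable {𝕜 : Type*} [RCLike 𝕜] {P Q : ℝ≥0∞} [hP1 : Fact (1 ≤ P)] [hQ1 : Fact (1 ≤ Q)]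
  [ENNReal.HolderConjugate Q P] {U : Ultrafilter ℕ}

variable {ξ : ℕ → I → ℝ} (hm : ∀ n, Measurable (ξ n))
  (hlaw : ∀ n, (volume : Measure I).map (ξ n) = mu0) (hind : iIndepFun ξ (volume : Measure I))

include hlaw in
theorem pairing_max (i m n : ℕ) :
    pairing 𝕜 P Q (elt 𝕜 Q hm ((1 / 2) ^ i) n) (elt 𝕜 P hm ((1 / 2) ^ m) n) =
      (((1 / 2 : ℝ) ^ (max i m) : ℝ) : 𝕜) := by
  rcases le_total i m with h | h
  · rw [max_eq_right h]
    exact pairing_elt' hm hlaw (half_pow_pos m)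
      (pow_le_pow_of_le_one (by norm_num) (by norm_num) h) (half_pow_le m) n
  · rw [max_eq_left h]
    exact pairing_elt hm hlaw (half_pow_pos i)
      (pow_le_pow_of_le_one (by norm_num) (by norm_num) h) (half_pow_le i) n

theorem product_bound {K A B : ℝ} (hA : 0 ≤ A) (hAK : A ≤ K) (hB : 0 ≤ B) (hBK : B ≤ K) (m : ℕ) :
    A * (B * √((2 : ℝ) ^ m)) ≤ K * K * (1 / √2) ^ m * (2 ^ m : ℕ) := by
  have h1 : (1 / √2 : ℝ) ^ m * ((2 ^ m : ℕ) : ℝ) = √((2 : ℝ) ^ m) := by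
    push_cast
    rw [← mul_pow]
    have : (1 / √2 * 2 : ℝ) = √2 := by
      rw [one_div, inv_mul_eq_div, Real.div_sqrt]
    rw [this, Real.sqrt_eq_rpow, Real.sqrt_eq_rpow, ← Real.rpow_natCast, ← Real.rpow_natCast,
      ← Real.rpow_mul (by norm_num), ← Real.rpow_mul (by norm_num), mul_comm]
  have hK : 0 ≤ K := hA.trans hAK
  calc A * (B * √((2 : ℝ) ^ m)) = A * B * √((2 : ℝ) ^ m) := by ring
    _ ≤ K * K * √((2 : ℝ) ^ m) := by gcongr
    _ = _ := by rw [← h1]; ring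

include hm hlaw hind in
/-- Both cases. -/
theorem cases_main (hU : NonPrincipal U) (hs : IsSelective U) (hP : P ≠ ∞) (hQ : Q ≠ ∞)
    (h : 1 / 2 < (P.toReal)⁻¹ ∨ 1 / 2 < (Q.toReal)⁻¹) :
    ∃ S ∈ wotClosure 𝕜 (LpI 𝕜 P) U, ∀ r : ℝ, S ∉ wotClosureBdd 𝕜 (LpI 𝕜 P) U r := by
  set K : ℝ := 2 * kconst P + 2 * kconst Q + 1 with hK
  have hkP := kconst_pos P
  have hkQ := kconst_pos Q
  have hK0 : 0 ≤ K := by linarith
  have hu : ∀ m : ℕ, UpperTwo 𝕜 K (elt 𝕜 P hm ((1 / 2) ^ m)) := fun m =>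
    (upperTwo_elt hm hlaw hind hP (half_pow_pos m) (half_pow_le m)).mono (by linarith)
  have hv : ∀ m : ℕ, UpperTwo 𝕜 K (fun n => pairing 𝕜 P Q (elt 𝕜 Q hm ((1 / 2) ^ m) n)) := fun m =>
    ((upperTwo_elt hm hlaw hind hQ (half_pow_pos m) (half_pow_le m)).mono
      (show 2 * kconst Q ≤ K by linarith)).map (pairing 𝕜 P Q) norm_pairing_le
  -- sums with signs
  have hsP : ∀ (m : ℕ) (J : Finset ℕ), J.card = 2 ^ m → ∀ s : ℕ → ℝ, (∀ n, s n = 1 ∨ s n = -1) →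
      ‖∑ n ∈ J, (s n : 𝕜) • elt 𝕜 P hm ((1 / 2) ^ m) n‖ ≤ kconst P :=
    fun m J hJ s hs' => norm_sum_signs hm hlaw hind hP m J hJ s hs'
  have hsQ : ∀ (m : ℕ) (J : Finset ℕ), J.card = 2 ^ m → ∀ s : ℕ → ℝ, (∀ n, s n = 1 ∨ s n = -1) →
      ‖∑ n ∈ J, (s n : 𝕜) • pairing 𝕜 P Q (elt 𝕜 Q hm ((1 / 2) ^ m) n)‖ ≤ kconst Q := by
    intro m J hJ s hs'
    have : ∑ n ∈ J, (s n : 𝕜) • pairing 𝕜 P Q (elt 𝕜 Q hm ((1 / 2) ^ m) n) =
        pairing 𝕜 P Q (∑ n ∈ J, (s n : 𝕜) • elt 𝕜 Q hm ((1 / 2) ^ m) n) := by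
      rw [map_sum]
      exact Finset.sum_congr rfl fun n _ => ((pairing 𝕜 P Q).map_smul _ _).symm
    rw [this]
    exact (norm_pairing_le _).trans (norm_sum_signs hm hlaw hind hQ m J hJ s hs')
  have hsq : ∀ (J : Finset ℕ) (s : ℕ → ℝ), (∀ n, s n = 1 ∨ s n = -1) →
      √(∑ n ∈ J, s n ^ 2) = √(J.card : ℝ) := by
    intro J s hs'
    congr 1
    rw [Finset.sum_congr rfl fun n _ => show s n ^ 2 = 1 by rcases hs' n with h | h <;> rw [h] <;> norm_num]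
    simp
  have hrP : ∀ (m : ℕ) (J : Finset ℕ), J.card = 2 ^ m → ∀ s : ℕ → ℝ, (∀ n, s n = 1 ∨ s n = -1) →
      ‖∑ n ∈ J, (s n : 𝕜) • elt 𝕜 P hm ((1 / 2) ^ 0) n‖ ≤ kconst P * √((2 : ℝ) ^ m) := by
    intro m J hJ s hs'
    have h1 := norm_sum_le_real (𝕜 := 𝕜) hm hlaw hind hP (half_pow_pos 0) (half_pow_le 0) J s
    rw [hsq J s hs', hJ] at h1
    push_cast at h1
    exact h1
  have hrQ : ∀ (m : ℕ) (J : Finset ℕ), J.card = 2 ^ m → ∀ s : ℕ → ℝ, (∀ n, s n = 1 ∨ s n = -1) →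
      ‖∑ n ∈ J, (s n : 𝕜) • pairing 𝕜 P Q (elt 𝕜 Q hm ((1 / 2) ^ 0) n)‖ ≤
        kconst Q * √((2 : ℝ) ^ m) := by
    intro m J hJ s hs'
    have : ∑ n ∈ J, (s n : 𝕜) • pairing 𝕜 P Q (elt 𝕜 Q hm ((1 / 2) ^ 0) n) =
        pairing 𝕜 P Q (∑ n ∈ J, (s n : 𝕜) • elt 𝕜 Q hm ((1 / 2) ^ 0) n) := by
      rw [map_sum]
      exact Finset.sum_congr rfl fun n _ => ((pairing 𝕜 P Q).map_smul _ _).symm
    rw [this]
    refine (norm_pairing_le _).trans ?_
    have h1 := norm_sum_le_real (𝕜 := 𝕜) hm hlaw hind hQ (half_pow_pos 0) (half_pow_le 0) J s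
    rw [hsq J s hs', hJ] at h1
    push_cast at h1
    exact h1
  rcases h with h | h
  · -- `p < 2`
    set τ := (P.toReal)⁻¹ with hτ
    set θ := (1 / 2 + τ) / 2 with hθ
    refine abstract_main (𝕜 := 𝕜) hU hs hK0
      (fun m n => elt 𝕜 P hm ((1 / 2) ^ m) n)
      (fun _ n => pairing 𝕜 P Q (elt 𝕜 Q hm ((1 / 2) ^ 0) n)) hu (fun _ => hv 0)
      (fun m => ((2 : ℝ) ^ θ) ^ m) (fun m => by positivity)
      (fun m => ((1 / 2 : ℝ) ^ m) ^ τ) (fun _ => K)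
      (fun m n => norm_elt hm hlaw hP (half_pow_pos m) (half_pow_le m) n)
      (fun _ n => (hv 0).norm_le n) ?_
      (fun _ n => elt 𝕜 P hm ((1 / 2) ^ 0) n)
      (fun m n => pairing 𝕜 P Q (elt 𝕜 Q hm ((1 / 2) ^ m) n))
      (fun _ n => (hu 0).norm_le n) (fun m n => (hv m).norm_le n)
      (fun _ _ => 1) (fun i m => (1 / 2) ^ (max m i)) (fun _ _ => zero_le_one)
      (fun _ _ => by positivity) ?_ ?_ (fun m => (1 / 2) ^ m) (fun m => K * K * (1 / √2) ^ m)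
      (fun m => by simp) ?_ (fun r => unbounded (by linarith) (K * K) r)
    · have := (summable_weights (show θ < τ by linarith)).mul_right K
      exact this.congr fun m => by ring
    · intro i m n
      have := pairing_max (𝕜 := 𝕜) (P := P) (Q := Q) hm hlaw 0 0 n
      simpa using this
    · intro i m n
      exact pairing_max (𝕜 := 𝕜) (P := P) (Q := Q) hm hlaw m i n
    · intro m
      refine ⟨2 ^ m, by positivity, fun J hJ s hs' => ?_⟩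
      rw [mul_comm]
      calc _ ≤ kconst Q * (kconst P * √((2 : ℝ) ^ m)) :=
            mul_le_mul (hsQ m J hJ s hs') (hrP m J hJ s hs') (norm_nonneg _) hkQ.le
        _ ≤ _ := product_bound hkQ.le (by linarith) hkP.le (by linarith) m
  · -- `p > 2`
    set τ := (Q.toReal)⁻¹ with hτ
    set θ := (1 / 2 + τ) / 2 with hθ
    refine abstract_main (𝕜 := 𝕜) hU hs hK0
      (fun _ n => elt 𝕜 P hm ((1 / 2) ^ 0) n)
      (fun m n => pairing 𝕜 P Q (elt 𝕜 Q hm ((1 / 2) ^ m) n)) (fun _ => hu 0) hv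
      (fun m => ((2 : ℝ) ^ θ) ^ m) (fun m => by positivity)
      (fun _ => K) (fun m => ((1 / 2 : ℝ) ^ m) ^ τ)
      (fun _ n => (hu 0).norm_le n)
      (fun m n => (norm_pairing_le _).trans
        (norm_elt hm hlaw hQ (half_pow_pos m) (half_pow_le m) n)) ?_
      (fun m n => elt 𝕜 P hm ((1 / 2) ^ m) n)
      (fun _ n => pairing 𝕜 P Q (elt 𝕜 Q hm ((1 / 2) ^ 0) n))
      (fun m n => (hu m).norm_le n) (fun _ n => (hv 0).norm_le n)
      (fun i m => (1 / 2) ^ (max i m)) (fun _ _ => 1)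
      (fun _ _ => by positivity) (fun _ _ => zero_le_one) ?_ ?_ (fun m => (1 / 2) ^ m)
      (fun m => K * K * (1 / √2) ^ m)
      (fun m => by simp) ?_ (fun r => unbounded (by linarith) (K * K) r)
    · have := (summable_weights (show θ < τ by linarith)).mul_right K
      exact this.congr fun m => by ring
    · intro i m n
      exact pairing_max (𝕜 := 𝕜) (P := P) (Q := Q) hm hlaw i m n
    · intro i m n
      have := pairing_max (𝕜 := 𝕜) (P := P) (Q := Q) hm hlaw 0 0 n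
      simpa using this
    · intro m
      refine ⟨2 ^ m, by positivity, fun J hJ s hs' => ?_⟩
      calc _ ≤ kconst P * (kconst Q * √((2 : ℝ) ^ m)) :=
            mul_le_mul (hsP m J hJ s hs') (hrQ m J hJ s hs') (norm_nonneg _) hkP.le
        _ ≤ _ := product_bound hkP.le (by linarith) hkQ.le (by linarith) m

end

end Pool.Agent.V7H85.UP
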